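import Pool.Agent.Run7.h634.AF.Red

/-!
# Invariance under the local centres
-/

set_option autoImplicit false
noncomputable section

namespace Run7.h634.AF

open IsDedekindDomain Polynomial WithZero RestrictedProduct Run7.h866.AF

variable (F : Type) [Field F]

/-- scalar matrices over `K` are central in `GL₂(𝔸)` -/
lemma glob_sc_comm (a : (RatFunc F)ˣ) (g : GA F) :
    glob F (Run7.h634.L.dg a a) * g = g * glob F (Run7.h634.L.dg a a) := by
  ext w : 1
  rw [RestrictedProduct.mul_apply, RestrictedProduct.mul_apply, glob_dg]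
  exact Run7.h634.L.sc_comm _ _

/-- a function on `GL₂(K) \ GL₂(𝔸) / GL₂(Ô)` invariant under the centre at infinity is invariant
under the centre at every place -/
theorem center_inv (H : GA F → ℂ) (hl : ∀ γ g, H (glob F γ * g) = H g)
    (hr : ∀ g, ∀ u ∈ U F 0, H (g * u) = H g)
    (hc : ∀ g, ∀ z : (Kc F none)ˣ, H (g * loc F none (Run7.h866.AF.dg z z)) = H g)
    (w : Pl F) (z : (Kc F w)ˣ) (g : GA F) :
    H (g * loc F w (Run7.h866.AF.dg z z)) = H g := by
  by_cases hw : w = none
  · subst hw; exact hc g z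
  · obtain ⟨a, ha1, ha2⟩ := sa_unit F w hw z
    set A := glob F (Run7.h634.L.dg a a) with hA
    -- the correction at infinity
    set b : (Kc F none)ˣ := Units.map (emb F none).toMonoidHom a with hb
    set u : GA F := loc F none (Run7.h866.AF.dg b b) * (A⁻¹ * loc F w (Run7.h866.AF.dg z z)) with hu
    have huU : u ∈ U F 0 := by
      intro w'
      have hval : ∀ w'', (A⁻¹ * loc F w (Run7.h866.AF.dg z z)) w'' =
          (A w'')⁻¹ * loc F w (Run7.h866.AF.dg z z) w'' := fun _ => rfl
      show (loc F none (Run7.h866.AF.dg b b)) w' *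
        (A⁻¹ * loc F w (Run7.h866.AF.dg z z)) w' ∈ Cong (Kc F w') 0
      rw [hval]
      by_cases h1 : w' = none
      · subst h1
        rw [loc_same, loc_ne (fun h => hw h.symm), mul_one, hA, glob_dg, dg_eq, mul_inv_cancel]
        exact one_mem _
      · rw [loc_ne h1, one_mul]
        by_cases h2 : w' = w
        · subst h2
          rw [loc_same, hA, glob_dg, dg_eq, Run7.h634.L.dg_inv, Run7.h634.L.dg_mul, cong_zero_eq]
          have hz : Valued.v (z : Kc F w') ≠ (0 : ℤᵐ⁰) := (Valuation.ne_zero_iff _).2 z.ne_zero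
          have h3 : Valued.v ((((Units.map (emb F w').toMonoidHom a)⁻¹ * z : (Kc F w')ˣ)) :
              Kc F w') = (1 : ℤᵐ⁰) := by
            rw [Units.val_mul, Units.val_inv_eq_inv_val, map_mul, map_inv₀]
            have h4 : Valued.v ((Units.map (emb F w').toMonoidHom a : (Kc F w')ˣ) : Kc F w') =
                (Valued.v (z : Kc F w') : ℤᵐ⁰) := ha1
            rw [h4, inv_mul_cancel₀ hz]
          exact Run7.h634.L.dg_mem_GLint h3 h3
        · rw [loc_ne h2, mul_one]
          refine inv_mem ?_
          exact dgK_mem F (ha2 w' h1 h2) (ha2 w' h1 h2)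
    have h5 : g * loc F w (Run7.h866.AF.dg z z) =
        A * (g * (loc F none (Run7.h866.AF.dg b b))⁻¹ * u) := by
      rw [hu, hA, glob_sc_comm]
      have h6 : g * (loc F none (Run7.h866.AF.dg b b))⁻¹ *
          (loc F none (Run7.h866.AF.dg b b) *
            ((glob F (Run7.h634.L.dg a a))⁻¹ * loc F w (Run7.h866.AF.dg z z))) *
          glob F (Run7.h634.L.dg a a) =
          g * ((glob F (Run7.h634.L.dg a a))⁻¹ * (loc F w (Run7.h866.AF.dg z z) *
            glob F (Run7.h634.L.dg a a))) := by group
      rw [h6, ← glob_sc_comm F a (loc F w (Run7.h866.AF.dg z z))]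
      group
    rw [h5, hA, hl, hr _ u huU, ← map_inv, dg_eq, Run7.h634.L.dg_inv, ← dg_eq]
    exact hc g b⁻¹

end Run7.h634.AF
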