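import Pool.Agent.Run7.h634.AF.Bridge

/-!
# Pieces A and B: components generated by Steinberg vectors
-/

set_option autoImplicit false
noncomputable section

namespace Run7.h634.AF

open WithZero RestrictedProduct Run7.h866.AF

variable {F : Type} [Field F]

lemma locSmooth_of {V : Type} [AddCommGroup V] [Module ℂ V] {ρ : Representation ℂ (GA F) V}
    {w : Pl F} (hs : SmoothAt F ρ w) :
    Run7.h634.L.LocSmooth (Valued.v : Valuation (Kc F w) ℤᵐ⁰) (resAt F ρ w) := by
  intro x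
  obtain ⟨n, hn⟩ := hs x
  exact ⟨n, fun g hg => hn g (by rw [cong_eq]; exact hg)⟩

/-- translates of Steinberg vectors by elements trivial at `w` -/
lemma stein_translate {V : Type} [AddCommGroup V] [Module ℂ V] {ρ : Representation ℂ (GA F) V}
    {w : Pl F} {R : Res (Kc F w)} {h : V} (hh : Run7.h634.L.IsStein (toD R) (resAt F ρ w) h)
    {y : GA F} (hy : y w = 1) : Run7.h634.L.IsStein (toD R) (resAt F ρ w) (ρ y h) := by
  refine hh.map (ρ y) fun g v => ?_
  show ρ y (ρ (loc F w g) v) = ρ (loc F w g) (ρ y v)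
  rw [← Module.End.mul_apply, ← map_mul, comm_loc hy, map_mul, Module.End.mul_apply]

/-- an irreducible representation of `GL₂(𝔸)` is generated over `GL₂(K_w)` by the translates of
any nonzero vector by the elements which are trivial at `w` -/
lemma gen_top {V : Type} [AddCommGroup V] [Module ℂ V] {ρ : Representation ℂ (GA F) V}
    (hρ : Irred ρ) (w : Pl F) {h : V} (h0 : h ≠ 0) :
    Run7.h634.L.gen (resAt F ρ w) {x | ∃ y : GA F, y w = 1 ∧ x = ρ y h} = ⊤ := by
  set S := {x | ∃ y : GA F, y w = 1 ∧ x = ρ y h} with hS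
  have hall : ∀ z : GA F, ρ z h ∈ Run7.h634.L.gen (resAt F ρ w) S := by
    intro z
    obtain ⟨y, hy, hz⟩ := exists_factor w z
    rw [hz, map_mul, Module.End.mul_apply]
    exact Run7.h634.L.translate_mem_gen (resAt F ρ w) S ⟨y, hy, rfl⟩ (z w)
  have hst : ∀ g, ∀ x ∈ Run7.h634.L.gen (resAt F ρ w) S, ρ g x ∈
      Run7.h634.L.gen (resAt F ρ w) S := by
    intro g x hx
    unfold Run7.h634.L.gen at hx
    induction hx using Submodule.span_induction with
    | mem x hx =>
      obtain ⟨a, _, ⟨y, hy, rfl⟩, rfl⟩ := hx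
      have h1 : ρ g (resAt F ρ w a (ρ y h)) = ρ (g * loc F w a * y) h := by
        rw [map_mul, map_mul]; rfl
      rw [h1]; exact hall _
    | zero => rw [map_zero]; exact zero_mem _
    | add x y _ _ hx hy => rw [map_add]; exact add_mem hx hy
    | smul a x _ hx => rw [map_smul]; exact Submodule.smul_mem _ _ hx
  refine (hρ.2 _ hst).resolve_left fun hbot => h0 ?_
  have h1 := hall 1
  rw [hbot, map_one] at h1
  exact (Submodule.mem_bot ℂ).mp h1

lemma isSubquotient_refl {G V : Type} [Group G] [AddCommGroup V] [Module ℂ V]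
    (ρ : Representation ℂ G V) : Run7.h634.L.IsSubquotient ρ ρ :=
  ⟨⊤, fun _ _ _ => trivial, (⊤ : Submodule ℂ V).subtype, fun x => ⟨⟨x, trivial⟩, rfl⟩,
    fun _ _ => rfl⟩

/-- (piece A) no unramified component -/
theorem st_not_unram {V : Type} [AddCommGroup V] [Module ℂ V] (ρ : Representation ℂ (GA F) V)
    (hρ : Irred ρ) (w : Pl F) (hs : SmoothAt F ρ w) (R : Res (Kc F w)) (h : V)
    (hh : IsSt R (resAt F ρ w) h) (u : V) (hu : ∀ k ∈ Cong (Kc F w) 0, ρ (loc F w k) u = u) :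
    u = 0 := by
  refine Run7.h634.L.noK (toD R) (finRes R) (locSmooth_of hs)
    (S := {x | ∃ y : GA F, y w = 1 ∧ x = ρ y h}) ?_ (gen_top hρ w hh.ne)
    (isSubquotient_refl (resAt F ρ w)) (u := u) ?_
  · rintro _ ⟨y, hy, rfl⟩
    exact stein_translate hh.stein hy
  · intro κ hκ
    exact hu κ (by rw [cong_zero_eq]; exact hκ)

/-- The `GL₂(K_w)`-span of a Steinberg vector in an irreducible representation of `GL₂(𝔸)` is
irreducible. -/
theorem irred_gen {V : Type} [AddCommGroup V] [Module ℂ V] (ρ : Representation ℂ (GA F) V)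
    (hρ : Irred ρ) (w : Pl F) (hs : SmoothAt F ρ w) (R : Res (Kc F w)) (h : V)
    (hh : IsSt R (resAt F ρ w) h) :
    Run7.h634.L.IsIrred (Run7.h634.L.subRep (resAt F ρ w)
      (Run7.h634.L.gen (resAt F ρ w) {h}) (Run7.h634.L.gen_stable _ _)) := by
  set σ := resAt F ρ w with hσ
  set B := Run7.h634.L.gen σ {h} with hB
  have hBst : Run7.h634.L.Stable σ B := Run7.h634.L.gen_stable _ _
  have hhB : h ∈ B := Run7.h634.L.subset_gen σ {h} rfl
  have hsm := locSmooth_of hs
  refine ⟨⟨⟨h, hhB⟩, 0, fun h0 => hh.ne (congrArg Subtype.val h0)⟩, ?_⟩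
  intro M hM
  by_cases hmem : (⟨h, hhB⟩ : B) ∈ M
  · right
    rw [eq_top_iff]
    have h1 : B ≤ M.map B.subtype := by
      refine Run7.h634.L.gen_le' σ _ ?_
      intro g y hy
      rw [Set.mem_singleton_iff.mp hy]
      exact ⟨_, hM g _ hmem, rfl⟩
    intro x _
    obtain ⟨y, hy, hyx⟩ := h1 x.2
    have : y = x := Subtype.ext hyx
    rwa [← this]
  · left
    -- `J = I`
    set J := Run7.h634.L.Iw (Valued.v : Valuation (Kc F w) ℤᵐ⁰) 1 with hJ
    have hst : Run7.h634.L.IsStein (toD R) σ h := hh.stein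
    have hfinB := Run7.h634.L.finOrb_of_smooth (finRes R) (hsm.sub B hBst) J
      (Run7.h634.L.Iw_le_GLint _ _)
    have hfin := Run7.h634.L.finOrb_of_smooth (finRes R) hsm J (Run7.h634.L.Iw_le_GLint _ _)
    have hstB : Run7.h634.L.IsStein (toD R) (Run7.h634.L.subRep σ B hBst) ⟨h, hhB⟩ :=
      { iw := fun i hi => Subtype.ext (hst.iw i hi)
        sc := fun z => Subtype.ext (hst.sc z)
        ww := Subtype.ext hst.ww
        sum := by
          apply Subtype.ext
          rw [Submodule.coe_sum]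
          exact hst.sum }
    -- every element of `M` is in `V(I)`
    have hMcoin : ∀ x ∈ M, (x : V) ∈ Run7.h634.L.coin (Run7.h634.L.resSub σ J) ⊤ := by
      intro x hx
      set τ := Run7.h634.L.subRep σ B hBst with hτ
      set C := Run7.h634.L.coin (Run7.h634.L.resSub τ J) ⊤ with hC
      set N : Submodule ℂ B := C ⊔ Submodule.span ℂ {⟨h, hhB⟩} with hNdef
      have hN : ∀ i ∈ J, ∀ v, τ i v - v ∈ N := fun i hi v =>
        Submodule.mem_sup_left (Run7.h634.L.sub_mem_coin (Run7.h634.L.resSub τ J) (j := ⟨i, hi⟩)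
          (Subgroup.mem_top _) v)
      have hhN : (⟨h, hhB⟩ : B) ∈ N := Submodule.mem_sup_right (Submodule.subset_span rfl)
      have hxN : x ∈ N := by
        have hle : B ≤ N.map B.subtype := by
          refine Run7.h634.L.gen_le' σ _ ?_
          intro g y hy
          rw [Set.mem_singleton_iff.mp hy]
          exact ⟨τ g ⟨h, hhB⟩, hstB.mem_of_I hN hhN g, rfl⟩
        obtain ⟨z, hz, hzy⟩ := hle x.2
        have : z = x := Subtype.ext hzy
        rwa [← this]
      obtain ⟨n, hn, c', hc', hsum⟩ := Submodule.mem_sup.mp hxN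
      obtain ⟨c, rfl⟩ := Submodule.mem_span_singleton.mp hc'
      obtain ⟨s, hs0, hs1⟩ := Run7.h634.L.avg_zero (Run7.h634.L.resSub τ J) hfinB hn
      -- sum of the translates of `x`
      have h2 : ∑ j ∈ s, (Run7.h634.L.resSub τ J j) x = ((s.card : ℂ) * c) • (⟨h, hhB⟩ : B) := by
        rw [← hsum]
        simp only [map_add, Finset.sum_add_distrib, hs1, zero_add, map_smul]
        have h3 : ∀ j : J, Run7.h634.L.resSub τ J j ⟨h, hhB⟩ = ⟨h, hhB⟩ :=
          fun j => hstB.iw j j.2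
        simp only [h3, Finset.sum_const]
        rw [mul_smul, Nat.cast_smul_eq_nsmul]
      have h4 : ∑ j ∈ s, (Run7.h634.L.resSub τ J j) x ∈ M :=
        M.sum_mem fun j _ => hM _ x hx
      have hc0 : c = 0 := by
        by_contra hc
        rw [h2] at h4
        have hcard : (s.card : ℂ) ≠ 0 := by exact_mod_cast hs0.card_pos.ne'
        have h5 := M.smul_mem ((s.card : ℂ) * c)⁻¹ h4
        rw [smul_smul, inv_mul_cancel₀ (mul_ne_zero hcard hc), one_smul] at h5
        exact hmem h5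
      rw [hc0, zero_smul, add_zero] at hsum
      rw [← hsum]
      -- `C` maps into `coin σ`
      have h6 : C ≤ (Run7.h634.L.coin (Run7.h634.L.resSub σ J) ⊤).comap B.subtype := by
        refine Submodule.span_le.mpr ?_
        rintro _ ⟨j, _, v, rfl⟩
        exact Run7.h634.L.sub_mem_coin (Run7.h634.L.resSub σ J) (Subgroup.mem_top j) (v : V)
      exact h6 hn
    -- the `GL₂(𝔸)`-span of `M`
    rw [eq_bot_iff]
    intro x hx
    rw [Submodule.mem_bot]
    by_contra hx0
    have hx0' : (x : V) ≠ 0 := fun h => hx0 (Subtype.ext h)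
    have htop := gen_top hρ w hx0'
    have hcl : ∀ (y : GA F), y w = 1 → ∀ v ∈ Run7.h634.L.coin (Run7.h634.L.resSub σ J) ⊤,
        ρ y v ∈ Run7.h634.L.coin (Run7.h634.L.resSub σ J) ⊤ := by
      intro y hy v hv
      have h7 : Run7.h634.L.coin (Run7.h634.L.resSub σ J) ⊤ ≤
          (Run7.h634.L.coin (Run7.h634.L.resSub σ J) ⊤).comap (ρ y) := by
        refine Submodule.span_le.mpr ?_
        rintro _ ⟨j, _, v, rfl⟩
        rw [SetLike.mem_coe, Submodule.mem_comap]
        show ρ y (ρ (loc F w j) v - v) ∈ _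
        rw [map_sub, ← Module.End.mul_apply, ← map_mul, comm_loc hy, map_mul, Module.End.mul_apply]
        exact Run7.h634.L.sub_mem_coin (Run7.h634.L.resSub σ J) (Subgroup.mem_top j) (ρ y v)
      exact h7 hv
    have h8 : Run7.h634.L.gen σ {z | ∃ y : GA F, y w = 1 ∧ z = ρ y x} ≤
        Run7.h634.L.coin (Run7.h634.L.resSub σ J) ⊤ := by
      refine Run7.h634.L.gen_le' σ _ ?_
      rintro g _ ⟨y, hy, rfl⟩
      have h9 : σ g (ρ y x) = ρ y (σ g x) := by
        show ρ (loc F w g) (ρ y x) = ρ y (ρ (loc F w g) x)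
        rw [← Module.End.mul_apply, ← map_mul, ← comm_loc hy, map_mul, Module.End.mul_apply]
      rw [h9]
      exact hcl y hy _ (hMcoin _ (hM g x hx))
    have h10 : h ∈ Run7.h634.L.coin (Run7.h634.L.resSub σ J) ⊤ := h8 (by rw [htop]; trivial)
    exact hh.ne (Run7.h634.L.fixed_coin_zero (Run7.h634.L.resSub σ J) hfin h10
      (fun j => hst.iw j j.2))

/-- (piece B) the component generated by a Steinberg vector does not depend on the
representation -/
theorem st_comp {V₁ V₂ : Type} [AddCommGroup V₁] [Module ℂ V₁] [AddCommGroup V₂] [Module ℂ V₂]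
    (ρ₁ : Representation ℂ (GA F) V₁) (ρ₂ : Representation ℂ (GA F) V₂)
    (h₁ : Irred ρ₁) (h₂ : Irred ρ₂) (w : Pl F) (s₁ : SmoothAt F ρ₁ w) (s₂ : SmoothAt F ρ₂ w)
    (R : Res (Kc F w)) (x₁ : V₁) (x₂ : V₂) (hx₁ : IsSt R (resAt F ρ₁ w) x₁)
    (hx₂ : IsSt R (resAt F ρ₂ w) x₂) :
    ∃ A : IrrRep (Kc F w), HasComp F ρ₁ w A ∧ HasComp F ρ₂ w A := by
  have i₁ := irred_gen ρ₁ h₁ w s₁ R x₁ hx₁
  have i₂ := irred_gen ρ₂ h₂ w s₂ R x₂ hx₂
  set B₁ := Run7.h634.L.gen (resAt F ρ₁ w) {x₁} with hB₁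
  set B₂ := Run7.h634.L.gen (resAt F ρ₂ w) {x₂} with hB₂
  have hst₁ : Run7.h634.L.Stable (resAt F ρ₁ w) B₁ := Run7.h634.L.gen_stable _ _
  have hst₂ : Run7.h634.L.Stable (resAt F ρ₂ w) B₂ := Run7.h634.L.gen_stable _ _
  have m₁ : x₁ ∈ B₁ := Run7.h634.L.subset_gen _ {x₁} rfl
  have m₂ : x₂ ∈ B₂ := Run7.h634.L.subset_gen _ {x₂} rfl
  have sm₁ := (locSmooth_of s₁).sub B₁ hst₁
  have sm₂ := (locSmooth_of s₂).sub B₂ hst₂
  have t₁ : Run7.h634.L.IsStein (toD R) (Run7.h634.L.subRep _ B₁ hst₁) ⟨x₁, m₁⟩ :=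
    { iw := fun i hi => Subtype.ext (hx₁.stein.iw i hi)
      sc := fun z => Subtype.ext (hx₁.stein.sc z)
      ww := Subtype.ext hx₁.stein.ww
      sum := by
        apply Subtype.ext
        rw [Submodule.coe_sum]
        exact hx₁.stein.sum }
  have t₂ : Run7.h634.L.IsStein (toD R) (Run7.h634.L.subRep _ B₂ hst₂) ⟨x₂, m₂⟩ :=
    { iw := fun i hi => Subtype.ext (hx₂.stein.iw i hi)
      sc := fun z => Subtype.ext (hx₂.stein.sc z)
      ww := Subtype.ext hx₂.stein.ww
      sum := by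
        apply Subtype.ext
        rw [Submodule.coe_sum]
        exact hx₂.stein.sum }
  obtain ⟨φ, hφ⟩ := Run7.h634.L.stein_unique (toD R) (finRes R) sm₁ sm₂ i₁ i₂ t₁ t₂
    (fun h => hx₁.ne (congrArg Subtype.val h)) (fun h => hx₂.ne (congrArg Subtype.val h))
  let A : IrrRep (Kc F w) :=
    { V := B₁
      ρ := Run7.h634.L.subRep _ B₁ hst₁
      irred := i₁
      smooth := fun x => by
        obtain ⟨n, hn⟩ := sm₁ x
        exact ⟨n, fun k hk => hn k (by rw [cong_eq] at hk; exact hk)⟩ }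
  refine ⟨A, ⟨B₁.subtype, ?_, fun g x => rfl⟩, ⟨B₂.subtype.comp φ.toLinearMap, ?_, ?_⟩⟩
  · intro h0
    have := LinearMap.congr_fun h0 ⟨x₁, m₁⟩
    exact hx₁.ne this
  · intro h0
    have h1 := LinearMap.congr_fun h0 (φ.symm ⟨x₂, m₂⟩)
    have h2 : ((φ (φ.symm ⟨x₂, m₂⟩) : B₂) : V₂) = 0 := h1
    rw [LinearEquiv.apply_symm_apply] at h2
    exact hx₂.ne h2
  · intro g x
    show ((φ (Run7.h634.L.subRep _ B₁ hst₁ g x) : B₂) : V₂) = _
    rw [hφ]
    rfl

end Run7.h634.AF
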