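import Pool.Agent.Run7.h866.AF.LocB
import Pool.Agent.Run7.h634.L.Stein2

/-!
# Bridge between the two sets of local definitions, and basic facts on `loc`
-/

set_option autoImplicit false
noncomputable section

namespace Run7.h634.AF

open WithZero RestrictedProduct Run7.h866.AF

section Local

variable {L : Type} [Field L] [Valued L ℤᵐ⁰]

lemma nU_eq (x : L) : nU x = Run7.h634.L.up x := by
  apply Units.ext
  ext i j
  fin_cases i <;> fin_cases j <;> simp [nU, triL]

lemma dg_eq (a d : Lˣ) : Run7.h866.AF.dg a d = Run7.h634.L.dg a d := Units.ext rfl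

lemma w0_eq : (Run7.h866.AF.w0 : GL (Fin 2) L) = Run7.h634.L.w0 := Units.ext rfl

lemma et_eq (R : Res L) : et R = Run7.h634.L.ww R.pi := by
  rw [et, dg_eq, w0_eq, Run7.h634.L.dg_mul_w0]

lemma cong_zero_eq : Cong L 0 = Run7.h634.L.GLint (Valued.v : Valuation L ℤᵐ⁰) := by
  ext g
  rw [mem_cong_zero_iff_det]; rfl

lemma cong_eq (n : ℕ) : Cong L n = Run7.h634.L.Kc (Valued.v : Valuation L ℤᵐ⁰) n := by
  ext g
  rw [mem_cong_iff, Run7.h634.L.mem_Kc, ← cong_zero_eq, mem_cong_zero_iff, and_assoc]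

lemma Iw_eq : Iw L = Run7.h634.L.Iw (Valued.v : Valuation L ℤᵐ⁰) 1 := by
  ext g
  have h : Valued.v (g.val 1 0) < (1 : ℤᵐ⁰) ↔ Valued.v (g.val 1 0) ≤ exp (-((1 : ℕ) : ℤ)) := by
    constructor
    · intro h
      by_cases hx : Valued.v (g.val 1 0) = (0 : ℤᵐ⁰)
      · rw [hx]; exact zero_le
      · rw [← exp_log hx] at h ⊢
        rw [← exp_zero, exp_lt_exp] at h
        rw [exp_le_exp]; omega
    · intro h
      refine lt_of_le_of_lt h ?_
      rw [← exp_zero, exp_lt_exp]; omega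
  rw [Run7.h634.L.mem_Iw, ← cong_zero_eq, ← h]
  rfl

lemma v_lt_one_iff {x : L} : Valued.v x < (1 : ℤᵐ⁰) ↔ Valued.v x ≤ exp (-1 : ℤ) := by
  constructor
  · intro h
    by_cases hx : Valued.v x = (0 : ℤᵐ⁰)
    · rw [hx]; exact zero_le
    · rw [← exp_log hx] at h ⊢
      rw [← exp_zero, exp_lt_exp] at h
      rw [exp_le_exp]; omega
  · intro h
    refine lt_of_le_of_lt h ?_
    rw [← exp_zero, exp_lt_exp]; omega

/-- the local data attached to a residue system -/
def toD (R : Res L) : Run7.h634.L.LocD L R.k where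
  v := Valued.v
  p := R.pi
  hp := R.hϖ
  c := R.r
  hc_le := R.r_int
  hres x hx := by
    obtain ⟨y, hy⟩ := R.r_ex x hx
    exact ⟨y, v_lt_one_iff.mp hy⟩
  hinj a b h := R.r_inj a b (v_lt_one_iff.mpr h)

@[simp] lemma toD_v (R : Res L) : (toD R).v = Valued.v := rfl

/-- residue rings are finite -/
theorem finRes (R : Res L) : Run7.h634.L.FinRes (Valued.v : Valuation L ℤᵐ⁰) := by
  classical
  intro m
  induction m with
  | zero => exact ⟨{0}, fun x hx => ⟨0, by simp, by simpa using hx⟩⟩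
  | succ m ih =>
    obtain ⟨T, hT⟩ := ih
    refine ⟨(Finset.univ ×ˢ T).image (fun y : R.k × L => R.r y.1 + R.ϖ * y.2), fun x hx => ?_⟩
    obtain ⟨y, hy⟩ := R.r_ex x hx
    have hϖ0 : R.ϖ ≠ 0 := R.pi.ne_zero
    have h1 : Valued.v ((x - R.r y) / R.ϖ) ≤ (1 : ℤᵐ⁰) := by
      rw [map_div₀, R.hϖ]
      have h2 := v_lt_one_iff.mp hy
      exact div_le_one_of_le₀ h2 zero_le
    obtain ⟨t, ht, htv⟩ := hT _ h1
    refine ⟨R.r y + R.ϖ * t, Finset.mem_image.mpr ⟨(y, t), by simp [ht], rfl⟩, ?_⟩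
    have h3 : x - (R.r y + R.ϖ * t) = R.ϖ * ((x - R.r y) / R.ϖ - t) := by
      field_simp; ring
    rw [h3, map_mul, R.hϖ]
    calc exp (-1 : ℤ) * Valued.v ((x - R.r y) / R.ϖ - t) ≤ exp (-1 : ℤ) * exp (-(m : ℤ)) :=
          mul_le_mul' le_rfl htv
      _ = exp (-((m + 1 : ℕ) : ℤ)) := by rw [← exp_add]; push_cast; ring_nf

section

variable {V : Type} [AddCommGroup V] [Module ℂ V] {R : Res L}
  {ρ : Representation ℂ (GL (Fin 2) L) V} {h : V}

lemma isStein_of (iw : ∀ k ∈ Iw L, ρ k h = h)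
    (cen : ∀ z : Lˣ, ρ (Run7.h866.AF.dg z z) h = h) (eta : ρ (et R) h = -h)
    (sum : h + ∑ y : R.k, ρ (nU (R.r y) * Run7.h866.AF.w0) h = 0) :
    Run7.h634.L.IsStein (toD R) ρ h where
  iw i hi := iw i (by rw [Iw_eq]; exact hi)
  sc z := by rw [← dg_eq]; exact cen z
  ww := by
    have := eta
    rw [et_eq] at this
    exact this
  sum := by
    rw [Fintype.sum_option, Run7.h634.L.LocD.rep_none, map_one]
    simp only [Run7.h634.L.LocD.rep_some]
    rw [← sum]
    simp only [nU_eq, w0_eq]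
    rfl

lemma _root_.Run7.h866.AF.IsSt.stein (hh : IsSt R ρ h) : Run7.h634.L.IsStein (toD R) ρ h :=
  isStein_of hh.iw hh.cen hh.eta hh.sum

end

end Local

variable {F : Type} [Field F]

@[simp] lemma loc_same (w : Pl F) (g : GL (Fin 2) (Kc F w)) : loc F w g w = g := by
  classical
  exact @Pi.mulSingle_eq_same _ (fun w => GL (Fin 2) (Kc F w)) _ _ w g

lemma loc_ne {w w' : Pl F} (h : w' ≠ w) (g : GL (Fin 2) (Kc F w)) : loc F w g w' = 1 := by
  classical
  exact @Pi.mulSingle_eq_of_ne _ (fun w => GL (Fin 2) (Kc F w)) _ _ w w' h g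

lemma comm_loc {w : Pl F} {y : GA F} (hy : y w = 1) (g : GL (Fin 2) (Kc F w)) :
    y * loc F w g = loc F w g * y := by
  ext w' : 1
  rw [RestrictedProduct.mul_apply, RestrictedProduct.mul_apply]
  by_cases h : w' = w
  · subst h
    rw [hy, one_mul, mul_one]
  · rw [loc_ne h, one_mul, mul_one]

/-- the factorization `g = loc g_w * g'` with `g'_w = 1` -/
lemma exists_factor (w : Pl F) (g : GA F) : ∃ y : GA F, y w = 1 ∧ g = loc F w (g w) * y := by
  refine ⟨(loc F w (g w))⁻¹ * g, ?_, by group⟩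
  rw [RestrictedProduct.mul_apply, RestrictedProduct.inv_apply, loc_same, inv_mul_cancel]

end Run7.h634.AF
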