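import Pool.Agent.Run7.h634.AF.A

/-!
# Piece C: spherical vectors with the Hecke eigenvalue of the trivial representation
-/

set_option autoImplicit false
noncomputable section

namespace Run7.h634.L

open WithZero

/-- Spherical vectors with the Hecke eigenvalue of the trivial representation. -/
structure IsSphV {F k : Type*} [Field F] [Fintype k] (D : LocD F k) {V : Type*} [AddCommGroup V]
    [Module ℂ V] (ρ : Representation ℂ (GL (Fin 2) F) V) (u : V) : Prop where
  sph : ∀ κ ∈ GLint D.v, ρ κ u = u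
  sc : ∀ z : Fˣ, ρ (dg z z) u = u
  sum : ρ (ww D.p) u + ∑ y : k, ρ (up (D.c y) * w0 * ww D.p) u =
    ((Fintype.card k : ℂ) + 1) • u

namespace IsSphV

variable {F k : Type*} [Field F] [Fintype k] {D : LocD F k} {V : Type*} [AddCommGroup V]
  [Module ℂ V] {ρ : Representation ℂ (GL (Fin 2) F) V} {u : V}

lemma map {U : Type*} [AddCommGroup U] [Module ℂ U] {σ : Representation ℂ (GL (Fin 2) F) U}
    (hs : IsSphV D ρ u) (p : V →ₗ[ℂ] U) (hp : ∀ g v, p (ρ g v) = σ g (p v)) :
    IsSphV D σ (p u) where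
  sph i hi := by rw [← hp, hs.sph i hi]
  sc z := by rw [← hp, hs.sc z]
  sum := by simp only [← hp]; rw [← map_sum, ← map_add, hs.sum, map_smul]

variable (hs : IsSphV D ρ u)

include hs in
lemma apply_mul {g κ : GL (Fin 2) F} (hκ : κ ∈ GLint D.v) : ρ (g * κ) u = ρ g u := by
  rw [map_mul, Module.End.mul_apply, hs.sph κ hκ]

include hs in
lemma apply_mul_sc {g : GL (Fin 2) F} (z : Fˣ) : ρ (g * dg z z) u = ρ g u := by
  rw [map_mul, Module.End.mul_apply, hs.sc]

include hs in
lemma dg_unit (n : ℕ) : ρ (dg 1 (D.p ^ n) * ww D.p) u = ρ (dg 1 (D.p ^ (n + 1))) u := by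
  have h1 : dg 1 (D.p ^ n) * ww D.p = dg 1 (D.p ^ (n + 1)) * w0 := by
    rw [← dg_mul_w0, ← mul_assoc, dg_mul, one_mul, pow_succ]
  rw [h1, hs.apply_mul (w0_mem_GLint _)]

include hs in
/-- the residue class of zero -/
lemma case_small (n : ℕ) {r : F} (hr : D.v r ≤ exp (-1)) :
    ρ (dg 1 (D.p ^ (n + 1)) * (up r * w0 * ww D.p)) u = ρ (dg 1 (D.p ^ n)) u := by
  have hp0 : (D.p : F) ≠ 0 := D.p.ne_zero
  have h1 : dg 1 (D.p ^ (n + 1)) * (up r * w0 * ww D.p) =
      dg 1 (D.p ^ n) * up (r / D.p) * dg D.p D.p := by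
    rw [mul_assoc (up r), w0_mul_ww]
    apply gl_ext
    · simp [mul_val_ij, -Units.val_mul]
    · simp [mul_val_ij, -Units.val_mul]
      try field_simp
    · simp [mul_val_ij, -Units.val_mul]
    · simp [mul_val_ij, -Units.val_mul]
      try rw [pow_succ]
  rw [h1, hs.apply_mul_sc, hs.apply_mul (up_mem_GLint ?_)]
  rw [map_div₀, D.hp]
  exact div_le_one_of_le₀ hr zero_le

include hs in
/-- the other residue classes -/
lemma case_unit (n : ℕ) {r : F} (hr : D.v r = 1) {N : Submodule ℂ V}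
    (hN : ∀ κ ∈ GLint D.v, ∀ v, ρ κ v - v ∈ N) :
    ρ (dg 1 (D.p ^ n) * (up r * w0 * ww D.p)) u - ρ (dg 1 (D.p ^ (n + 1))) u ∈ N := by
  have hr0 : r ≠ 0 := by
    intro h; rw [h, map_zero] at hr; exact zero_ne_one hr
  obtain ⟨s, hs'⟩ : ∃ s : Fˣ, (s : F) = r := ⟨Units.mk0 r hr0, rfl⟩
  have hsi : ((s⁻¹ : Fˣ) : F) = r⁻¹ := by rw [Units.val_inv_eq_inv_val, hs']
  have hns : ((-s⁻¹ : Fˣ) : F) = -r⁻¹ := by rw [Units.val_neg, hsi]
  have hp0 : (D.p : F) ≠ 0 := D.p.ne_zero
  have h1 : dg 1 (D.p ^ n) * (up r * w0 * ww D.p) =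
      lo ((D.p : F) ^ n / r) * (dg 1 (D.p ^ (n + 1)) * (dg s (-s⁻¹) * up (D.p / r) * w0)) := by
    rw [mul_assoc (up r), w0_mul_ww]
    apply gl_ext
    · simp [mul_val_ij, -Units.val_mul, hs', hns]
      try field_simp
    · simp [mul_val_ij, -Units.val_mul, hs', hns]
    · simp [mul_val_ij, -Units.val_mul, hs', hns]
      field_simp
      ring
    · simp [mul_val_ij, -Units.val_mul, hs', hns]
      try field_simp
  have hvn : D.v ((D.p : F) ^ n / r) ≤ 1 := by
    rw [map_div₀, hr, div_one, map_pow, D.hp]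
    have : exp (-1 : ℤ) ≤ (1 : ℤᵐ⁰) := by rw [← exp_zero, exp_le_exp]; omega
    exact pow_le_one' this n
  have hvp : D.v ((D.p : F) / r) ≤ 1 := by
    rw [map_div₀, hr, div_one, D.hp, ← exp_zero, exp_le_exp]; omega
  rw [h1, map_mul, Module.End.mul_apply, hs.apply_mul (mul_mem (mul_mem (dg_mem_GLint ?_ ?_)
    (up_mem_GLint hvp)) (w0_mem_GLint _))]
  · exact hN _ (lo_mem_GLint hvn) _
  · rw [hs', hr]
  · rw [hns, Valuation.map_neg, map_inv₀, hr, inv_one]

include hs in
/-- modulo any subspace containing all `κ v - v`, `κ ∈ K`, the vector `u` is fixed. -/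
theorem sub_mem {N : Submodule ℂ V} (hN : ∀ κ ∈ GLint D.v, ∀ v, ρ κ v - v ∈ N)
    (g : GL (Fin 2) F) : ρ g u - u ∈ N := by
  classical
  have hne : Nonempty k := D.nonempty
  set q : ℂ := (Fintype.card k : ℂ) with hq
  have hq0 : q ≠ 0 := by rw [hq]; exact_mod_cast Fintype.card_ne_zero
  have hq1 : q + 1 ≠ 0 := by rw [hq]; exact_mod_cast Nat.succ_ne_zero (Fintype.card k)
  let a : ℕ → V := fun n => ρ (dg 1 (D.p ^ n)) u
  have ha0 : a 0 = u := by show ρ (dg 1 (D.p ^ 0)) u = u; rw [pow_zero, dg_one, map_one]; rfl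
  -- translated Hecke relation
  have hrel : ∀ n, a (n + 1) + ∑ y : k, ρ (dg 1 (D.p ^ n) * (up (D.c y) * w0 * ww D.p)) u =
      (q + 1) • a n := by
    intro n
    have h1 := congrArg (ρ (dg 1 (D.p ^ n))) hs.sum
    rw [map_add, map_sum, map_smul, ← Module.End.mul_apply, ← map_mul, hs.dg_unit] at h1
    rw [← h1]
    congr 1
    refine Finset.sum_congr rfl fun y _ => ?_
    rw [← Module.End.mul_apply, ← map_mul]
  -- step zero
  have h01 : a 1 - a 0 ∈ N := by
    have h1 := hrel 0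
    have h2 : ∀ y : k, ρ (dg 1 (D.p ^ 0) * (up (D.c y) * w0 * ww D.p)) u - a 1 ∈ N := by
      intro y
      have h3 : dg 1 (D.p ^ 0) * (up (D.c y) * w0 * ww D.p) =
          up (D.c y) * w0 * (dg 1 (D.p ^ 1) * w0) := by
        rw [pow_zero, dg_one, one_mul, pow_one, dg_mul_w0]
      rw [h3, map_mul, Module.End.mul_apply, hs.apply_mul (w0_mem_GLint _)]
      exact hN _ (mul_mem (up_mem_GLint (D.hc_le y)) (w0_mem_GLint _)) _
    have h4 : (q + 1) • (a 1 - a 0) =
        -∑ y : k, (ρ (dg 1 (D.p ^ 0) * (up (D.c y) * w0 * ww D.p)) u - a 1) := by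
      rw [Finset.sum_sub_distrib, Finset.sum_const, Finset.card_univ, smul_sub, ← h1,
        ← Nat.cast_smul_eq_nsmul ℂ, ← hq, add_smul, one_smul]
      abel
    have h5 : (q + 1) • (a 1 - a 0) ∈ N := by
      rw [h4]; exact N.neg_mem (N.sum_mem fun y _ => h2 y)
    have h6 := N.smul_mem (q + 1)⁻¹ h5
    rwa [smul_smul, inv_mul_cancel₀ hq1, one_smul] at h6
  -- the induction
  obtain ⟨y₀, hy₀⟩ := D.hres 0 (by simp)
  have hy₀' : D.v (D.c y₀) ≤ exp (-1) := by simpa using hy₀
  have hstep : ∀ n, a (n + 1) - a n ∈ N → a (n + 2) - a (n + 1) ∈ N := by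
    intro n ih
    have h1 := hrel (n + 1)
    have h2 : ∀ y : k, y ≠ y₀ → ρ (dg 1 (D.p ^ (n + 1)) * (up (D.c y) * w0 * ww D.p)) u -
        a (n + 2) ∈ N := by
      intro y hy
      refine hs.case_unit (n + 1) ?_ hN
      refine le_antisymm (D.hc_le y) ?_
      by_contra hlt
      have h3 := D.lt_one_iff.mp (not_le.mp hlt)
      apply hy
      apply D.hinj
      have : D.c y - D.c y₀ ∈ PP D.v (-1) := _root_.sub_mem (mem_PP.mpr h3) (mem_PP.mpr hy₀')
      exact this
    have h3 : ρ (dg 1 (D.p ^ (n + 1)) * (up (D.c y₀) * w0 * ww D.p)) u = a n :=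
      hs.case_small n hy₀'
    rw [← Finset.add_sum_erase Finset.univ _ (Finset.mem_univ y₀), h3] at h1
    have hcard : ((Finset.univ.erase y₀).card : ℂ) = q - 1 := by
      rw [Finset.card_erase_of_mem (Finset.mem_univ _), Finset.card_univ, hq]
      rw [Nat.cast_sub (Fintype.card_pos)]; simp
    have h4 : q • (a (n + 2) - a (n + 1)) = (a (n + 1) - a n) -
        ∑ y ∈ Finset.univ.erase y₀,
          (ρ (dg 1 (D.p ^ (n + 1)) * (up (D.c y) * w0 * ww D.p)) u - a (n + 2)) := by
      rw [Finset.sum_sub_distrib, Finset.sum_const, ← Nat.cast_smul_eq_nsmul ℂ, hcard]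
      have h5 : ∑ y ∈ Finset.univ.erase y₀,
          ρ (dg 1 (D.p ^ (n + 1)) * (up (D.c y) * w0 * ww D.p)) u =
          (q + 1) • a (n + 1) - a (n + 2) - a n := by
        rw [← h1]
        show _ = a (n + 1 + 1) + (a n + _) - a (n + 2) - a n
        abel
      rw [h5]
      module
    have h5 : q • (a (n + 2) - a (n + 1)) ∈ N := by
      rw [h4]
      refine N.sub_mem ih (N.sum_mem fun y hy => h2 y (Finset.ne_of_mem_erase hy))
    have h6 := N.smul_mem q⁻¹ h5
    rwa [smul_smul, inv_mul_cancel₀ hq0, one_smul] at h6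
  have hsucc : ∀ n, a (n + 1) - a n ∈ N := by
    intro n
    induction n with
    | zero => exact h01
    | succ n ih => exact hstep n ih
  have hall : ∀ n, a n - u ∈ N := by
    intro n
    induction n with
    | zero => rw [ha0, sub_self]; exact zero_mem _
    | succ n ih =>
      have := N.add_mem (hsucc n) ih
      simpa using this
  -- general `g`
  obtain ⟨κ, hκ, i, hi, z, d, rfl⟩ := D.cartan g
  obtain ⟨n, t, ht, rfl⟩ := D.exists_unit_mul d
  have h1 : ρ (κ * dg 1 (D.p ^ n * t) * i * dg z z) u = ρ κ (ρ (dg 1 (D.p ^ n)) u) := by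
    have h2 : dg 1 (D.p ^ n * t) = dg 1 (D.p ^ n) * dg 1 t := by rw [dg_mul, one_mul]
    rw [h2, hs.apply_mul_sc, hs.apply_mul hi.1, map_mul, Module.End.mul_apply,
      hs.apply_mul (dg_mem_GLint (by simp) ht)]
  rw [h1]
  have h2 : ρ (dg 1 (D.p ^ n)) u - u ∈ N := by
    obtain ⟨m, rfl | rfl⟩ := n.eq_nat_or_neg
    · rw [zpow_natCast]; exact hall m
    · have h3 : dg 1 (D.p ^ (-(m : ℤ))) =
          w0 * dg 1 (D.p ^ m) * w0 * dg (D.p ^ (-(m : ℤ))) (D.p ^ (-(m : ℤ))) := by
        have hP : ((D.p ^ (-(m : ℤ)) : Fˣ) : F) * (D.p : F) ^ m = 1 := by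
          rw [zpow_neg, zpow_natCast, ← Units.val_pow_eq_pow_val, ← Units.val_mul,
            inv_mul_cancel, Units.val_one]
        generalize D.p ^ (-(m : ℤ)) = P at hP
        apply gl_ext
        · simp [mul_val_ij, -Units.val_mul]
          rw [← hP]; ring
        · simp [mul_val_ij, -Units.val_mul]
        · simp [mul_val_ij, -Units.val_mul]
        · simp [mul_val_ij, -Units.val_mul]
      rw [h3, hs.apply_mul_sc, hs.apply_mul (w0_mem_GLint _), map_mul, Module.End.mul_apply]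
      have := N.add_mem (hN w0 (w0_mem_GLint _) (a m)) (hall m)
      simpa [a] using this
  have := N.add_mem (hN κ hκ (ρ (dg 1 (D.p ^ n)) u)) h2
  simpa using this

end IsSphV

end Run7.h634.L

namespace Run7.h634.AF

open WithZero RestrictedProduct Run7.h866.AF

variable {F : Type} [Field F]

lemma _root_.Run7.h866.AF.IsSph.sphV {L : Type} [Field L] [Valued L ℤᵐ⁰] {V : Type}
    [AddCommGroup V] [Module ℂ V] {R : Res L} {ρ : Representation ℂ (GL (Fin 2) L) V} {u : V}
    (hu : IsSph R ρ u) : Run7.h634.L.IsSphV (toD R) ρ u where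
  sph κ hκ := hu.sph κ (by rw [cong_zero_eq]; exact hκ)
  sc z := by rw [← dg_eq]; exact hu.cen z
  sum := by
    have := hu.sum
    simp only [et_eq, nU_eq, w0_eq] at this
    exact this

/-- (piece C) spherical vectors with the eigenvalue of the trivial representation -/
theorem sph_trivial {V : Type} [AddCommGroup V] [Module ℂ V] (ρ : Representation ℂ (GA F) V)
    (hρ : Irred ρ) (w : Pl F) (hs : SmoothAt F ρ w) (R : Res (Kc F w)) (u : V)
    (hu : IsSph R (resAt F ρ w) u) (g : GL (Fin 2) (Kc F w)) (x : V) :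
    ρ (loc F w g) x = x := by
  set σ := resAt F ρ w with hσ
  have hsm := locSmooth_of hs
  set J := Run7.h634.L.GLint (Valued.v : Valuation (Kc F w) ℤᵐ⁰) with hJ
  set N := Run7.h634.L.coin (Run7.h634.L.resSub σ J) ⊤ with hNdef
  have hN : ∀ κ ∈ J, ∀ v, σ κ v - v ∈ N := fun κ hκ v =>
    Run7.h634.L.sub_mem_coin (Run7.h634.L.resSub σ J) (j := ⟨κ, hκ⟩) (Subgroup.mem_top _) v
  have hfin := Run7.h634.L.finOrb_of_smooth (finRes R) hsm J le_rfl
  have huN : u ∉ N := fun h => hu.ne (Run7.h634.L.fixed_coin_zero (Run7.h634.L.resSub σ J) hfin h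
    (fun j => hu.sphV.sph j j.2))
  -- the coinvariants of `GL₂(K_w)`
  set C := Run7.h634.L.coin σ ⊤ with hC
  have hCst : ∀ y, ∀ v ∈ C, ρ y v ∈ C := by
    intro y v hv
    have h1 : C ≤ C.comap (ρ y) := by
      refine Submodule.span_le.mpr ?_
      rintro _ ⟨a, _, v, rfl⟩
      rw [SetLike.mem_coe, Submodule.mem_comap, map_sub]
      have h2 : y * loc F w a = loc F w (y w * a * (y w)⁻¹) * y := by
        obtain ⟨y', hy', hy⟩ := exists_factor w y
        have h3 : y * loc F w a = loc F w (y w) * (y' * loc F w a) := by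
          rw [← mul_assoc, ← hy]
        have h4 : loc F w (y w * a * (y w)⁻¹) * y =
            loc F w (y w * a * (y w)⁻¹) * (loc F w (y w) * y') := by rw [← hy]
        rw [h3, comm_loc hy', h4, ← mul_assoc, ← mul_assoc, ← map_mul, ← map_mul]
        congr 2; group
      have h3 : ρ y (σ a v) = σ (y w * a * (y w)⁻¹) (ρ y v) := by
        show ρ y (ρ (loc F w a) v) = ρ (loc F w (y w * a * (y w)⁻¹)) (ρ y v)
        rw [← Module.End.mul_apply, ← map_mul, h2, map_mul, Module.End.mul_apply]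
      rw [h3]
      exact Run7.h634.L.sub_mem_coin σ (Subgroup.mem_top _) (ρ y v)
    exact h1 hv
  rcases hρ.2 C hCst with hb | ht
  · have h1 : σ g x - x ∈ C := Run7.h634.L.sub_mem_coin σ (Subgroup.mem_top g) x
    rw [hb, Submodule.mem_bot, sub_eq_zero] at h1
    exact h1
  · exfalso
    apply huN
    -- `C ≤ N`
    have htop := gen_top hρ w hu.ne
    have hle : C ≤ N := by
      refine Submodule.span_le.mpr ?_
      rintro _ ⟨a, _, v, rfl⟩
      have hv : v ∈ Run7.h634.L.gen σ {x | ∃ y : GA F, y w = 1 ∧ x = ρ y u} := by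
        rw [htop]; trivial
      unfold Run7.h634.L.gen at hv
      induction hv using Submodule.span_induction with
      | mem v hv =>
        obtain ⟨b, _, ⟨y, hy, rfl⟩, rfl⟩ := hv
        have hsp : Run7.h634.L.IsSphV (toD R) σ (ρ y u) := by
          refine hu.sphV.map (ρ y) fun g v => ?_
          show ρ y (ρ (loc F w g) v) = ρ (loc F w g) (ρ y v)
          rw [← Module.End.mul_apply, ← map_mul, comm_loc hy, map_mul, Module.End.mul_apply]
        have h1 := hsp.sub_mem (N := N) hN (a * b)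
        have h2 := hsp.sub_mem (N := N) hN b
        have h3 := N.sub_mem h1 h2
        rw [map_mul, Module.End.mul_apply] at h3
        simpa using h3
      | zero => rw [map_zero, sub_zero]; exact zero_mem _
      | add v v' _ _ h1 h2 =>
        have h3 := N.add_mem h1 h2
        rw [map_add]
        have h4 : σ a v + σ a v' - (v + v') = (σ a v - v) + (σ a v' - v') := by abel
        rw [h4]; exact h3
      | smul c v _ h1 =>
        rw [map_smul, ← smul_sub]; exact N.smul_mem c h1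
    exact hle (by rw [ht]; trivial)

end Run7.h634.AF
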