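import Pool.Agent.Run7.h634.AF.Bridge

/-!
# Piece D: admissibility
-/

set_option autoImplicit false
noncomputable section

namespace Run7.h634.AF

open WithZero RestrictedProduct Run7.h866.AF

section Local

variable {L : Type} [Field L]

/-- local conjugation: a conjugate of a congruence subgroup contains a congruence subgroup -/
lemma exists_conj_loc (v : Valuation L ℤᵐ⁰) (g : GL (Fin 2) L) (n : ℕ) :
    ∃ m, ∀ k ∈ Run7.h634.L.Kc v m, g⁻¹ * k * g ∈ Run7.h634.L.Kc v n := by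
  -- a bound for the entries of `g` and `g⁻¹`
  have hb : ∀ h : GL (Fin 2) L, ∃ N : ℕ, ∀ i j, v (h.val i j) ≤ exp (N : ℤ) := by
    intro h
    have h1 : ∀ x : L, ∃ N : ℕ, v x ≤ exp (N : ℤ) := by
      intro x
      by_cases hx : v x = 0
      · exact ⟨0, by rw [hx]; exact zero_le⟩
      · refine ⟨(log (v x)).toNat, ?_⟩
        nth_rewrite 1 [← exp_log hx]
        rw [exp_le_exp]; omega
    choose N hN using h1
    refine ⟨∑ i, ∑ j, N (h.val i j), fun i j => (hN _).trans ?_⟩
    rw [exp_le_exp]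
    have h2 : N (h.val i j) ≤ ∑ i, ∑ j, N (h.val i j) :=
      (Finset.single_le_sum (f := fun j => N (h.val i j)) (fun _ _ => Nat.zero_le _)
        (Finset.mem_univ j)).trans
        (Finset.single_le_sum (f := fun i => ∑ j, N (h.val i j)) (fun _ _ => Nat.zero_le _)
        (Finset.mem_univ i))
    exact_mod_cast h2
  obtain ⟨N₁, h₁⟩ := hb g
  obtain ⟨N₂, h₂⟩ := hb g⁻¹
  refine ⟨N₁ + N₂ + n, fun k hk => ?_⟩
  -- entries of `g⁻¹ k g - 1`
  have key : ∀ k' : GL (Fin 2) L, (∀ i j, v (k'.val i j - (1 : Matrix (Fin 2) (Fin 2) L) i j) ≤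
      exp (-((N₁ + N₂ + n : ℕ) : ℤ))) → ∀ i j,
      v ((g⁻¹ * k' * g).val i j - (1 : Matrix (Fin 2) (Fin 2) L) i j) ≤ exp (-(n : ℤ)) := by
    intro k' hk' i j
    have h3 : (g⁻¹ * g).val i j = (1 : Matrix (Fin 2) (Fin 2) L) i j := by
      rw [inv_mul_cancel]; rfl
    rw [Run7.h634.L.mul_val_ij] at h3
    have h4 : (g⁻¹ * k' * g).val i j - (1 : Matrix (Fin 2) (Fin 2) L) i j =
        ((g⁻¹).val i 0 * (k'.val 0 0 - (1 : Matrix (Fin 2) (Fin 2) L) 0 0) +
          (g⁻¹).val i 1 * (k'.val 1 0 - (1 : Matrix (Fin 2) (Fin 2) L) 1 0)) * g.val 0 j +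
        ((g⁻¹).val i 0 * (k'.val 0 1 - (1 : Matrix (Fin 2) (Fin 2) L) 0 1) +
          (g⁻¹).val i 1 * (k'.val 1 1 - (1 : Matrix (Fin 2) (Fin 2) L) 1 1)) * g.val 1 j := by
      rw [← h3, Run7.h634.L.mul_val_ij (g⁻¹ * k'), Run7.h634.L.mul_val_ij g⁻¹ k',
        Run7.h634.L.mul_val_ij g⁻¹ k']
      simp
      ring
    rw [h4, ← Run7.h634.L.mem_PP]
    have e (a b : Fin 2) : (g⁻¹).val i a * (k'.val a b - (1 : Matrix (Fin 2) (Fin 2) L) a b) ∈
        Run7.h634.L.PP v (N₂ + -((N₁ + N₂ + n : ℕ) : ℤ)) :=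
      Run7.h634.L.mul_mem_PP (h₂ i a) (hk' a b)
    refine add_mem ?_ ?_
    · exact Run7.h634.L.PP_mono (by push_cast; omega)
        (Run7.h634.L.mul_mem_PP (add_mem (e 0 0) (e 1 0)) (h₁ 0 j))
    · exact Run7.h634.L.PP_mono (by push_cast; omega)
        (Run7.h634.L.mul_mem_PP (add_mem (e 0 1) (e 1 1)) (h₁ 1 j))
  have hcong := key k hk.2
  refine ⟨⟨fun i j => ?_, ?_⟩, hcong⟩
  · have h5 := hcong i j
    rw [← Run7.h634.L.mem_PP_zero]
    have h6 : (1 : Matrix (Fin 2) (Fin 2) L) i j ∈ Run7.h634.L.PP v 0 := by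
      rw [Run7.h634.L.mem_PP_zero, Matrix.one_apply]; split_ifs <;> simp
    have h7 : (g⁻¹ * k * g).val i j - (1 : Matrix (Fin 2) (Fin 2) L) i j ∈
        Run7.h634.L.PP v 0 := Run7.h634.L.PP_mono (by omega) h5
    have := add_mem h7 h6
    simpa using this
  · rw [Units.val_mul, Units.val_mul, Matrix.det_mul, Matrix.det_mul, map_mul, map_mul, hk.1.2,
      mul_one, ← map_mul, ← Matrix.det_mul, ← Units.val_mul, inv_mul_cancel]
    simp

/-- smoothness of the representation generated by smooth vectors -/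
lemma locSmooth_gen (v : Valuation L ℤᵐ⁰) {V : Type*} [AddCommGroup V] [Module ℂ V]
    (σ : Representation ℂ (GL (Fin 2) L) V) (S : Set V)
    (hS : ∀ h ∈ S, ∃ m : ℕ, ∀ k ∈ Run7.h634.L.Kc v m, σ k h = h) :
    ∀ x ∈ Run7.h634.L.gen σ S, ∃ m : ℕ, ∀ k ∈ Run7.h634.L.Kc v m, σ k x = x := by
  intro x hx
  unfold Run7.h634.L.gen at hx
  induction hx using Submodule.span_induction with
  | mem x hx =>
    obtain ⟨g, h, hh, rfl⟩ := hx
    obtain ⟨n, hn⟩ := hS h hh
    obtain ⟨m, hm⟩ := exists_conj_loc v g n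
    refine ⟨m, fun k hk => ?_⟩
    have h1 := hn _ (hm k hk)
    have h2 : k * g = g * (g⁻¹ * k * g) := by group
    rw [← Module.End.mul_apply, ← map_mul, h2, map_mul, Module.End.mul_apply, h1]
  | zero => exact ⟨0, fun k _ => map_zero _⟩
  | add x y _ _ hx hy =>
    obtain ⟨m, hm⟩ := hx
    obtain ⟨n, hn⟩ := hy
    refine ⟨max m n, fun k hk => ?_⟩
    rw [map_add, hm k (Run7.h634.L.Kc_anti v (le_max_left _ _) hk),
      hn k (Run7.h634.L.Kc_anti v (le_max_right _ _) hk)]
  | smul a x _ hx =>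
    obtain ⟨m, hm⟩ := hx
    exact ⟨m, fun k hk => by rw [map_smul, hm k hk]⟩

/-- admissibility of the span of the translates of finitely many Steinberg vectors -/
theorem adm_gen {k : Type*} [Fintype k] (D : Run7.h634.L.LocD L k)
    (hF : Run7.h634.L.FinRes D.v) {V : Type*} [AddCommGroup V] [Module ℂ V]
    (σ : Representation ℂ (GL (Fin 2) L) V) {S : Set V} (hfin : S.Finite)
    (hS : ∀ h ∈ S, Run7.h634.L.IsStein D σ h) (m : ℕ) :
    FiniteDimensional ℂ
      (Run7.h634.L.gen σ S ⊓ Run7.h634.L.fixedBy σ (Run7.h634.L.Kc D.v m) : Submodule ℂ V) := by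
  set B := Run7.h634.L.gen σ S with hB
  have hBst : Run7.h634.L.Stable σ B := Run7.h634.L.gen_stable σ S
  have hsm0 : ∀ h ∈ S, ∃ m : ℕ, ∀ k ∈ Run7.h634.L.Kc D.v m, σ k h = h := fun h hh =>
    ⟨1, fun k hk => (hS h hh).iw k (Run7.h634.L.Kc_le_Iw D.v 1 hk)⟩
  have hsm : Run7.h634.L.LocSmooth D.v (Run7.h634.L.subRep σ B hBst) := by
    intro x
    obtain ⟨m, hm⟩ := locSmooth_gen D.v σ S hsm0 x x.2
    exact ⟨m, fun g hg => Subtype.ext (hm g hg)⟩
  let S' : Set B := Subtype.val ⁻¹' S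
  have hS'fin : S'.Finite := hfin.preimage Subtype.val_injective.injOn
  have hS' : ∀ h ∈ S', Run7.h634.L.IsStein D (Run7.h634.L.subRep σ B hBst) h := by
    intro h hh
    have t := hS _ hh
    exact
      { iw := fun i hi => Subtype.ext (t.iw i hi)
        sc := fun z => Subtype.ext (t.sc z)
        ww := Subtype.ext t.ww
        sum := by
          apply Subtype.ext
          rw [Submodule.coe_sum]
          exact t.sum }
  have htop : Run7.h634.L.gen (Run7.h634.L.subRep σ B hBst) S' = ⊤ := by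
    rw [eq_top_iff]
    have h1 : B ≤ (Run7.h634.L.gen (Run7.h634.L.subRep σ B hBst) S').map B.subtype := by
      refine Run7.h634.L.gen_le' σ _ ?_
      intro g y hy
      have hyB : y ∈ B := Run7.h634.L.subset_gen σ S hy
      exact ⟨Run7.h634.L.subRep σ B hBst g ⟨y, hyB⟩,
        Run7.h634.L.translate_mem_gen _ S' (show (⟨y, hyB⟩ : B) ∈ S' from hy) g, rfl⟩
    intro x _
    obtain ⟨y, hy, hyx⟩ := h1 x.2
    have : y = x := Subtype.ext hyx
    rwa [← this]
  have hfd := Run7.h634.L.stein_adm D hF hsm hS'fin hS' htop m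
  have h2 : (B ⊓ Run7.h634.L.fixedBy σ (Run7.h634.L.Kc D.v m) : Submodule ℂ V) ≤
      (Run7.h634.L.fixedBy (Run7.h634.L.subRep σ B hBst) (Run7.h634.L.Kc D.v m)).map B.subtype := by
    rintro x ⟨hx1, hx2⟩
    exact ⟨⟨x, hx1⟩, fun g hg => Subtype.ext (hx2 g hg), rfl⟩
  have h3 : FiniteDimensional ℂ
      ((Run7.h634.L.fixedBy (Run7.h634.L.subRep σ B hBst) (Run7.h634.L.Kc D.v m)).map
        B.subtype) := inferInstance
  exact Submodule.finiteDimensional_of_le h2

end Local

variable {F : Type} [Field F]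

/-- (piece D) admissibility; `c` is the constant function in the application to the first
representation, and `0` in the application to the second one -/
theorem st_adm (w : Pl F) (R : Res (Kc F w)) (h : GA F → ℂ)
    (iw : ∀ k ∈ Iw (Kc F w), rt F (loc F w k) h = h)
    (cen : ∀ z : (Kc F w)ˣ, rt F (loc F w (Run7.h866.AF.dg z z)) h = h)
    (eta : rt F (loc F w (et R)) h = -h)
    (c : GA F → ℂ) (hc : ∀ g, rt F (loc F w g) c = c)
    (sum : h + ∑ y : R.k, rt F (loc F w (nU (R.r y) * Run7.h866.AF.w0)) h = c) (n : ℕ) :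
    FiniteDimensional ℂ (spanAt F w h ⊓ fixedAt F w n : Submodule ℂ _) := by
  set σ := resAt F (rt F) w with hσ
  let C : Submodule ℂ (GA F → ℂ) := Submodule.span ℂ {c}
  have hC : Run7.h634.L.Stable σ C := by
    intro g b hb
    obtain ⟨a, rfl⟩ := Submodule.mem_span_singleton.mp hb
    rw [map_smul]
    have : σ g c = c := hc g
    rw [this]; exact hb
  have hst : Run7.h634.L.IsStein (toD R) (Run7.h634.L.quotRep σ C hC) (C.mkQ h) := by
    refine isStein_of ?_ ?_ ?_ ?_
    · intro k hk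
      rw [Run7.h634.L.quotRep_mkQ]
      exact congrArg _ (iw k hk)
    · intro z
      rw [Run7.h634.L.quotRep_mkQ]
      exact congrArg _ (cen z)
    · rw [Run7.h634.L.quotRep_mkQ, ← map_neg]
      exact congrArg _ eta
    · simp only [Run7.h634.L.quotRep_mkQ]
      rw [← map_sum, ← map_add]
      have h1 : h + ∑ y : R.k, σ (nU (R.r y) * Run7.h866.AF.w0) h = c := sum
      rw [h1, Submodule.mkQ_apply, Submodule.Quotient.mk_eq_zero]
      exact Submodule.subset_span rfl
  have hfd := adm_gen (toD R) (finRes R) (Run7.h634.L.quotRep σ C hC)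
    (S := {C.mkQ h}) (Set.finite_singleton _) (by
      intro y hy
      rw [Set.mem_singleton_iff.mp hy]; exact hst) n
  set X : Submodule ℂ (GA F → ℂ) := spanAt F w h ⊓ fixedAt F w n with hX
  have h1 : (X.map C.mkQ).FG := by
    have hle : X.map C.mkQ ≤ (Run7.h634.L.gen (Run7.h634.L.quotRep σ C hC) {C.mkQ h} ⊓
        Run7.h634.L.fixedBy (Run7.h634.L.quotRep σ C hC)
          (Run7.h634.L.Kc (toD R).v n) : Submodule ℂ _) := by
      rintro _ ⟨x, ⟨hx1, hx2⟩, rfl⟩
      refine ⟨?_, ?_⟩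
      · have h3 : spanAt F w h ≤
            (Run7.h634.L.gen (Run7.h634.L.quotRep σ C hC) {C.mkQ h}).comap C.mkQ := by
          refine Submodule.span_le.mpr ?_
          rintro _ ⟨g, rfl⟩
          exact Run7.h634.L.translate_mem_gen (Run7.h634.L.quotRep σ C hC) {C.mkQ h} rfl g
        exact h3 hx1
      · intro g hg
        have hg' : g ∈ Cong (Kc F w) n := by rw [cong_eq]; exact hg
        rw [Run7.h634.L.quotRep_mkQ]
        exact congrArg _ (hx2 g hg')
    have := Submodule.finiteDimensional_of_le hle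
    exact (Submodule.fg_iff_finiteDimensional _).mpr this
  have h2 : (X ⊓ LinearMap.ker C.mkQ).FG := by
    have hle : X ⊓ LinearMap.ker C.mkQ ≤ C := by
      rw [Submodule.ker_mkQ]; exact inf_le_right
    have hCfd : FiniteDimensional ℂ C := inferInstance
    have := Submodule.finiteDimensional_of_le hle
    exact (Submodule.fg_iff_finiteDimensional _).mpr this
  exact (Submodule.fg_iff_finiteDimensional _).mp
    (Submodule.fg_of_fg_map_of_fg_inf_ker C.mkQ h1 h2)

end Run7.h634.AF
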