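import Pool.Agent.Run7.h634.AF.Bridge

/-!
# Piece E: irreducible quotients; piece F: automorphic forms generate automorphic forms
-/

set_option autoImplicit false
noncomputable section

namespace Run7.h634.AF

open WithZero RestrictedProduct Run7.h866.AF

variable {F : Type} [Field F]

/-- (piece E) irreducible quotients -/
theorem exists_irred_quotient (S M : Submodule ℂ (GA F → ℂ))
    (hS : ∀ g, ∀ f ∈ S, rt F g f ∈ S) (hM : ∀ g, ∀ f ∈ M, rt F g f ∈ M) (_hMS : M ≤ S)
    (h : S) (hh : (h : GA F → ℂ) ∉ M)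
    (hgen : S = Submodule.span ℂ (Set.range fun g : GA F => rt F g h)) :
    ∃ (V : Type) (_ : AddCommGroup V) (_ : Module ℂ V) (ρ : Representation ℂ (GA F) V)
      (φ : S →ₗ[ℂ] V), Irred ρ ∧ Function.Surjective φ ∧
      (∀ (g : GA F) (f f' : S), (f' : GA F → ℂ) = rt F g f → φ f' = ρ g (φ f)) ∧
      φ h ≠ 0 ∧ ∀ f : S, (f : GA F → ℂ) ∈ M → φ f = 0 := by
  let τ : Representation ℂ (GA F) S := Run7.h634.L.subRep (rt F) S hS
  let N : Submodule ℂ S := M.comap S.subtype
  have hN : Run7.h634.L.Stable τ N := fun g b hb => hM g _ hb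
  have hgen' : ∀ W : Submodule ℂ S, Run7.h634.L.Stable τ W → N ≤ W → h ∈ W → W = ⊤ := by
    intro W hW _ hhW
    rw [eq_top_iff]
    have h1 : S ≤ W.map S.subtype := by
      conv_lhs => rw [hgen]
      refine Submodule.span_le.mpr ?_
      rintro _ ⟨g, rfl⟩
      exact ⟨_, hW g h hhW, rfl⟩
    intro x _
    obtain ⟨y, hy, hyx⟩ := h1 x.2
    have : y = x := Subtype.ext hyx
    rwa [← this]
  obtain ⟨Q, hQ, hNQ, hhQ, hirr⟩ := Run7.h634.L.exists_irr_quot τ N hN h hh hgen'
  refine ⟨S ⧸ Q, inferInstance, inferInstance, Run7.h634.L.quotRep τ Q hQ, Q.mkQ, hirr,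
    Q.mkQ_surjective, ?_, ?_, ?_⟩
  · intro g f f' hff
    rw [Run7.h634.L.quotRep_mkQ]
    have : f' = τ g f := Subtype.ext hff
    rw [this]
  · intro h0
    exact hhQ ((Submodule.Quotient.mk_eq_zero Q).mp h0)
  · intro f hf
    exact (Submodule.Quotient.mk_eq_zero Q).mpr (hNQ hf)

end Run7.h634.AF
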