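import Pool.Agent.Run7.h634.AF.D
import Pool.Agent.Run7.h866.AF.Conj
import Pool.Agent.Run7.h866.AF.ResK

/-!
# Piece F: an automorphic form generates automorphic forms
-/

set_option autoImplicit false
noncomputable section

namespace Run7.h634.AF

open WithZero RestrictedProduct Run7.h866.AF

/-- averaging two vectors with stabilizers of finite index -/
lemma avg_fix {J V : Type*} [Group J] [AddCommGroup V] [Module ℂ V] (ρ : Representation ℂ J V)
    {a b : V} {N₁ N₂ : Subgroup J} (h₁ : N₁.FiniteIndex) (h₂ : N₂.FiniteIndex)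
    (ha : ∀ j ∈ N₁, ρ j a = a) (hb : ∀ j ∈ N₂, ρ j b = b) :
    ∃ s : Finset J, s.Nonempty ∧ (∀ j, ρ j (∑ i ∈ s, ρ i a) = ∑ i ∈ s, ρ i a) ∧
      (∀ j, ρ j (∑ i ∈ s, ρ i b) = ∑ i ∈ s, ρ i b) := by
  classical
  set N := N₁ ⊓ N₂ with hN
  have hf : N.FiniteIndex := inferInstance
  have hfin : Finite (J ⧸ N) := inferInstance
  have hft : Fintype (J ⧸ N) := Fintype.ofFinite _
  have key : ∀ v : V, (∀ j ∈ N, ρ j v = v) → ∀ j, ρ j (∑ c : J ⧸ N, ρ c.out v) =
      ∑ c : J ⧸ N, ρ c.out v := by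
    intro v hv j
    rw [map_sum]
    have h1 : ∀ c : J ⧸ N, ρ j (ρ c.out v) = ρ ((j • c).out) v := by
      intro c
      have h2 : (QuotientGroup.mk (j * c.out) : J ⧸ N) = j • c := by
        conv_rhs => rw [← QuotientGroup.out_eq' c]
        rfl
      obtain ⟨n, hn⟩ := QuotientGroup.mk_out_eq_mul N (j * c.out)
      rw [← h2, hn, map_mul, Module.End.mul_apply, hv _ n.2, map_mul, Module.End.mul_apply]
    simp only [h1]
    exact Fintype.sum_equiv (MulAction.toPerm j) _ _ (fun _ => rfl)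
  have hinj : Function.Injective (fun c : J ⧸ N => c.out) := by
    intro a b hab
    have hab' : a.out = b.out := hab
    have : (QuotientGroup.mk a.out : J ⧸ N) = QuotientGroup.mk b.out := by rw [hab']
    simpa using this
  refine ⟨Finset.univ.image (fun c : J ⧸ N => c.out), ?_, ?_, ?_⟩
  · exact ⟨(QuotientGroup.mk 1 : J ⧸ N).out, Finset.mem_image_of_mem _ (Finset.mem_univ _)⟩
  · intro j
    rw [Finset.sum_image (fun a _ b _ h => hinj h)]
    exact key a (fun j hj => ha j hj.1) j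
  · intro j
    rw [Finset.sum_image (fun a _ b _ h => hinj h)]
    exact key b (fun j hj => hb j hj.2) j

/-- fixed vectors in a sum of two stable smooth subspaces -/
lemma fixed_sup {J V : Type*} [Group J] [AddCommGroup V] [Module ℂ V] (ρ : Representation ℂ J V)
    {A B X : Submodule ℂ V} (hX : ∀ x, x ∈ X ↔ ∀ j, ρ j x = x)
    (hA : ∀ j, ∀ a ∈ A, ρ j a ∈ A) (hB : ∀ j, ∀ a ∈ B, ρ j a ∈ B)
    (hA' : ∀ a ∈ A, ∃ N : Subgroup J, N.FiniteIndex ∧ ∀ j ∈ N, ρ j a = a)
    (hB' : ∀ a ∈ B, ∃ N : Subgroup J, N.FiniteIndex ∧ ∀ j ∈ N, ρ j a = a) :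
    (A ⊔ B) ⊓ X ≤ (A ⊓ X) ⊔ (B ⊓ X) := by
  rintro x ⟨hx1, hx2⟩
  obtain ⟨a, ha, b, hb, rfl⟩ := Submodule.mem_sup.mp hx1
  obtain ⟨N₁, h₁, h₁'⟩ := hA' a ha
  obtain ⟨N₂, h₂, h₂'⟩ := hB' b hb
  obtain ⟨s, hs, hsa, hsb⟩ := avg_fix ρ h₁ h₂ h₁' h₂'
  have hc : (s.card : ℂ) ≠ 0 := by exact_mod_cast hs.card_pos.ne'
  have h3 : (s.card : ℂ) • (a + b) = ∑ i ∈ s, ρ i a + ∑ i ∈ s, ρ i b := by
    rw [← Finset.sum_add_distrib]
    have h4 : ∀ i, ρ i a + ρ i b = a + b := by
      intro i; rw [← map_add]; exact (hX _).mp hx2 i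
    simp only [h4, Finset.sum_const]
    rw [Nat.cast_smul_eq_nsmul]
  have h5 : (s.card : ℂ) • (a + b) ∈ (A ⊓ X) ⊔ (B ⊓ X) := by
    rw [h3]
    refine Submodule.add_mem_sup ⟨?_, (hX _).mpr hsa⟩ ⟨?_, (hX _).mpr hsb⟩
    · exact A.sum_mem fun i _ => hA i a ha
    · exact B.sum_mem fun i _ => hB i b hb
  have h6 := Submodule.smul_mem _ (s.card : ℂ)⁻¹ h5
  rwa [smul_smul, inv_mul_cancel₀ hc, one_smul] at h6

variable {F : Type} [Field F]

lemma spanAt_eq (w : Pl F) (f : GA F → ℂ) :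
    spanAt F w f = Run7.h634.L.gen (resAt F (rt F) w) {f} := by
  unfold spanAt Run7.h634.L.gen
  congr 1
  ext x
  constructor
  · rintro ⟨g, rfl⟩
    exact ⟨g, f, rfl, rfl⟩
  · rintro ⟨g, h, hh, rfl⟩
    rw [Set.mem_singleton_iff.mp hh]
    exact ⟨g, rfl⟩

lemma fixedAt_eq (w : Pl F) (n : ℕ) : fixedAt F w n =
    Run7.h634.L.fixedBy (resAt F (rt F) w)
      (Run7.h634.L.Kc (Valued.v : Valuation (Kc F w) ℤᵐ⁰) n) := by
  ext x
  constructor
  · intro hx g hg
    exact hx g (by rw [cong_eq]; exact hg)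
  · intro hx g hg
    exact hx g (by rw [cong_eq] at hg; exact hg)

lemma loc_mem_U {w : Pl F} {m : Pl F →₀ ℕ} {k : GL (Fin 2) (Kc F w)}
    (hk : k ∈ Cong (Kc F w) (m w)) : loc F w k ∈ U F m := by
  intro w'
  by_cases h : w' = w
  · subst h; rw [loc_same]; exact hk
  · rw [loc_ne h]; exact one_mem _

/-- the set of `(w, ·)`-smooth functions generated -/
lemma smooth_spanAt (w : Pl F) (f : GA F → ℂ) (hf : ∃ m, ∀ u ∈ U F m, ∀ g, f (g * u) = f g) :
    ∀ x ∈ spanAt F w f, ∃ m : ℕ, ∀ k ∈ Run7.h634.L.Kc (Valued.v : Valuation (Kc F w) ℤᵐ⁰) m,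
      resAt F (rt F) w k x = x := by
  rw [spanAt_eq]
  refine locSmooth_gen _ _ _ ?_
  intro h hh
  rw [Set.mem_singleton_iff.mp hh]
  obtain ⟨m, hm⟩ := hf
  refine ⟨m w, fun k hk => ?_⟩
  funext g
  exact hm _ (loc_mem_U (by rw [cong_eq]; exact hk)) g

variable (F) [Fintype F]

/-- two-term additivity of admissibility -/
lemma adm_sup (w : Pl F) (n : ℕ) {A B : Submodule ℂ (GA F → ℂ)}
    (hA : Run7.h634.L.Stable (resAt F (rt F) w) A) (hB : Run7.h634.L.Stable (resAt F (rt F) w) B)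
    (hA' : ∀ x ∈ A, ∃ m : ℕ, ∀ k ∈ Run7.h634.L.Kc (Valued.v : Valuation (Kc F w) ℤᵐ⁰) m,
      resAt F (rt F) w k x = x)
    (hB' : ∀ x ∈ B, ∃ m : ℕ, ∀ k ∈ Run7.h634.L.Kc (Valued.v : Valuation (Kc F w) ℤᵐ⁰) m,
      resAt F (rt F) w k x = x)
    (hAf : FiniteDimensional ℂ (A ⊓ fixedAt F w n : Submodule ℂ _))
    (hBf : FiniteDimensional ℂ (B ⊓ fixedAt F w n : Submodule ℂ _)) :
    FiniteDimensional ℂ ((A ⊔ B) ⊓ fixedAt F w n : Submodule ℂ _) := by
  obtain ⟨R⟩ := exists_res F w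
  set J := Run7.h634.L.Kc (Valued.v : Valuation (Kc F w) ℤᵐ⁰) n with hJ
  have hfi : ∀ m : ℕ, ((Run7.h634.L.Kc (Valued.v : Valuation (Kc F w) ℤᵐ⁰) m).subgroupOf
      J).FiniteIndex := by
    intro m
    have h1 := Run7.h634.L.finiteIndex_Kc (finRes R) m
    have h2 : (Run7.h634.L.Kc (Valued.v : Valuation (Kc F w) ℤᵐ⁰) m).relIndex
      (Run7.h634.L.GLint Valued.v) ≠ 0 := h1.index_ne_zero
    exact ⟨fun h => h2 (Subgroup.relIndex_eq_zero_of_le_right
      (Run7.h634.L.Kc_le_GLint _ n) h)⟩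
  have hle := fixed_sup (Run7.h634.L.resSub (resAt F (rt F) w) J) (A := A) (B := B)
    (X := fixedAt F w n) (by
      intro x
      rw [fixedAt_eq, Run7.h634.L.mem_fixedBy]
      exact ⟨fun h j => h j j.2, fun h g hg => h ⟨g, hg⟩⟩)
    (fun j a ha => hA j a ha) (fun j a ha => hB j a ha)
    (by
      intro a ha
      obtain ⟨m, hm⟩ := hA' a ha
      exact ⟨_, hfi m, fun j hj => hm _ (Subgroup.mem_subgroupOf.mp hj)⟩)
    (by
      intro a ha
      obtain ⟨m, hm⟩ := hB' a ha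
      exact ⟨_, hfi m, fun j hj => hm _ (Subgroup.mem_subgroupOf.mp hj)⟩)
  exact Submodule.finiteDimensional_of_le hle

lemma rt_smooth {h : GA F → ℂ} (smooth : ∃ m, ∀ u ∈ U F m, ∀ g, h (g * u) = h g) (g : GA F) :
    ∃ m, ∀ u ∈ U F m, ∀ x, rt F g h (x * u) = rt F g h x := by
  obtain ⟨m, hm⟩ := smooth
  obtain ⟨m₀, hm₀⟩ := exists_conj F g m
  refine ⟨m₀, fun u hu x => ?_⟩
  show h (x * u * g) = h (x * g)
  have h1 : x * u * g = x * g * (g⁻¹ * u * g) := by group
  rw [h1, hm _ (hm₀ u hu)]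

/-- (piece F) the functions generated by an automorphic form are automorphic forms -/
theorem autForm_span (w : Pl F) (h : GA F → ℂ) (left : ∀ γ g, h (glob F γ * g) = h g)
    (smooth : ∃ m, ∀ u ∈ U F m, ∀ g, h (g * u) = h g)
    (adm : ∀ n, FiniteDimensional ℂ (spanAt F w h ⊓ fixedAt F w n : Submodule ℂ _))
    (f : GA F → ℂ) (hf : f ∈ Submodule.span ℂ (Set.range fun g : GA F => rt F g h)) :
    IsAutForm F f := by
  -- the general statement proved by induction
  have key : (∀ γ g, f (glob F γ * g) = f g) ∧ (∃ m, ∀ u ∈ U F m, ∀ g, f (g * u) = f g) ∧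
      ∀ n, FiniteDimensional ℂ (spanAt F w f ⊓ fixedAt F w n : Submodule ℂ _) := by
    induction hf using Submodule.span_induction with
    | mem x hx =>
      obtain ⟨g, rfl⟩ := hx
      refine ⟨fun γ x => ?_, rt_smooth F smooth g, fun n => ?_⟩
      · show h (glob F γ * x * g) = h (x * g)
        rw [mul_assoc]; exact left γ _
      · obtain ⟨y, hy, hg⟩ := exists_factor w g
        have hle : (spanAt F w (rt F g h) ⊓ fixedAt F w n : Submodule ℂ _) ≤
            (spanAt F w h ⊓ fixedAt F w n : Submodule ℂ _).map (rt F y) := by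
          rintro x ⟨hx1, hx2⟩
          have h1 : spanAt F w (rt F g h) ≤ (spanAt F w h).map (rt F y) := by
            refine Submodule.span_le.mpr ?_
            rintro _ ⟨a, rfl⟩
            refine ⟨rt F (loc F w (a * g w)) h, Submodule.subset_span ⟨_, rfl⟩, ?_⟩
            have h2 : loc F w a * g = y * loc F w (a * g w) := by
              rw [comm_loc hy, map_mul, mul_assoc, ← hg]
            show rt F y (rt F (loc F w (a * g w)) h) = rt F (loc F w a) (rt F g h)
            rw [← Module.End.mul_apply, ← map_mul, ← Module.End.mul_apply, ← map_mul, h2]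
          obtain ⟨z, hz, rfl⟩ := h1 hx1
          refine ⟨z, ⟨hz, fun k hk => ?_⟩, rfl⟩
          have h3 := hx2 k hk
          rw [← Module.End.mul_apply, ← map_mul, ← comm_loc hy, map_mul,
            Module.End.mul_apply] at h3
          have hcan : ∀ a, rt F y⁻¹ (rt F y a) = a := by
            intro a
            rw [← Module.End.mul_apply, ← map_mul, inv_mul_cancel, map_one]; rfl
          have h4 := congrArg (rt F y⁻¹) h3
          rw [hcan, hcan] at h4
          exact h4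
        have := adm n
        exact Submodule.finiteDimensional_of_le hle
    | zero =>
      refine ⟨fun _ _ => rfl, ⟨0, fun _ _ _ => rfl⟩, fun n => ?_⟩
      have h1 : spanAt F w (0 : GA F → ℂ) ≤ ⊥ := by
        refine Submodule.span_le.mpr ?_
        rintro _ ⟨a, rfl⟩
        show rt F (loc F w a) 0 ∈ _
        rw [map_zero]; exact zero_mem _
      have h2 : (spanAt F w (0 : GA F → ℂ) ⊓ fixedAt F w n : Submodule ℂ _) ≤ ⊥ :=
        inf_le_left.trans h1
      exact Submodule.finiteDimensional_of_le h2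
    | add a b _ _ ha hb =>
      obtain ⟨ha1, ⟨ma, ha2⟩, ha3⟩ := ha
      obtain ⟨hb1, ⟨mb, hb2⟩, hb3⟩ := hb
      refine ⟨fun γ x => ?_, ⟨ma + mb, fun u hu x => ?_⟩, fun n => ?_⟩
      · show a (glob F γ * x) + b (glob F γ * x) = a x + b x
        rw [ha1, hb1]
      · show a (x * u) + b (x * u) = a x + b x
        rw [ha2 u (U_anti F (le_self_add) hu), hb2 u (U_anti F (le_add_self) hu)]
      · have h1 : spanAt F w (a + b) ≤ spanAt F w a ⊔ spanAt F w b := by
          refine Submodule.span_le.mpr ?_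
          rintro _ ⟨g, rfl⟩
          show rt F (loc F w g) (a + b) ∈ _
          rw [map_add]
          exact Submodule.add_mem_sup (Submodule.subset_span ⟨g, rfl⟩)
            (Submodule.subset_span ⟨g, rfl⟩)
        have hst : ∀ f : GA F → ℂ, Run7.h634.L.Stable (resAt F (rt F) w) (spanAt F w f) := by
          intro f; rw [spanAt_eq]; exact Run7.h634.L.gen_stable _ _
        have h2 := adm_sup F w n (hst a) (hst b) (smooth_spanAt w a ⟨ma, ha2⟩)
          (smooth_spanAt w b ⟨mb, hb2⟩) (ha3 n) (hb3 n)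
        exact Submodule.finiteDimensional_of_le (inf_le_inf_right _ h1)
    | smul c a _ ha =>
      obtain ⟨ha1, ⟨ma, ha2⟩, ha3⟩ := ha
      refine ⟨fun γ x => ?_, ⟨ma, fun u hu x => ?_⟩, fun n => ?_⟩
      · show c • a (glob F γ * x) = c • a x
        rw [ha1]
      · show c • a (x * u) = c • a x
        rw [ha2 u hu]
      · have h1 : spanAt F w (c • a) ≤ spanAt F w a := by
          refine Submodule.span_le.mpr ?_
          rintro _ ⟨g, rfl⟩
          show rt F (loc F w g) (c • a) ∈ _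
          rw [map_smul]
          exact Submodule.smul_mem _ _ (Submodule.subset_span ⟨g, rfl⟩)
        have := ha3 n
        exact Submodule.finiteDimensional_of_le (inf_le_inf_right _ h1)
  exact ⟨key.1, key.2.1, w, key.2.2⟩

end Run7.h634.AF
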