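import Pool.Agent.Run7.h634.AF.SA

/-!
# Piece H: the product formula, the trivial representation is isobaric
-/

set_option autoImplicit false
noncomputable section

namespace Run7.h634.AF

open IsDedekindDomain Polynomial WithZero RestrictedProduct Run7.h866.AF

variable (F : Type) [Field F] [Fintype F]

lemma qn_pos (w : Pl F) : (0 : ℝ) < (qn F w : ℝ) := by
  cases w with
  | none =>
    show (0 : ℝ) < ((Nat.card F : ℕ) : ℝ)
    exact_mod_cast Nat.card_pos
  | some v =>
    have := finite_quot F v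
    show (0 : ℝ) < ((Nat.card (F[X] ⧸ v.asIdeal) : ℕ) : ℝ)
    exact_mod_cast Nat.card_pos

/-! ### the product formula -/

/-- the product of the normalised absolute values -/
def prodN (x : RatFunc F) : ℝ := ∏ᶠ w : Pl F, (qn F w : ℝ) ^ (log (vK F w x))

lemma eventually_unit {x : RatFunc F} (hx : x ≠ 0) :
    {w : Pl F | vK F w x ≠ 1}.Finite := by
  have h1 := eventually_integral F x
  have h2 := eventually_integral F x⁻¹
  have h3 : ∀ᶠ w : Pl F in Filter.cofinite, vK F w x = 1 := by
    filter_upwards [h1, h2] with w hw1 hw2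
    refine le_antisymm hw1 ?_
    rw [map_inv₀] at hw2
    have hx' : 0 < vK F w x := by
      rw [zero_lt_iff]
      exact (Valuation.ne_zero_iff _).2 hx
    exact (inv_le_one₀ hx').1 hw2
  exact Filter.eventually_cofinite.1 h3

lemma finite_supp {x : RatFunc F} (hx : x ≠ 0) :
    (Function.mulSupport fun w : Pl F => (qn F w : ℝ) ^ (log (vK F w x))).Finite := by
  refine (eventually_unit F hx).subset ?_
  intro w hw h
  apply hw
  show (qn F w : ℝ) ^ (log (vK F w x)) = 1
  rw [h, log_one, zpow_zero]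

lemma prodN_mul {x y : RatFunc F} (hx : x ≠ 0) (hy : y ≠ 0) :
    prodN F (x * y) = prodN F x * prodN F y := by
  unfold prodN
  rw [← finprod_mul_distrib (finite_supp F hx) (finite_supp F hy)]
  refine finprod_congr fun w => ?_
  have h1 : vK F w x ≠ 0 := (Valuation.ne_zero_iff _).2 hx
  have h2 : vK F w y ≠ 0 := (Valuation.ne_zero_iff _).2 hy
  rw [map_mul, log_mul h1 h2, zpow_add₀ (qn_pos F w).ne']

lemma prodN_one : prodN F 1 = 1 := by
  unfold prodN
  have : ∀ w : Pl F, (qn F w : ℝ) ^ (log (vK F w (1 : RatFunc F))) = 1 := by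
    intro w; rw [map_one, log_one, zpow_zero]
  simp only [this]
  exact finprod_one

lemma card_quot {p : F[X]} (hp : p ≠ 0) :
    Nat.card (F[X] ⧸ Ideal.span {p}) = Nat.card F ^ p.natDegree := by
  have h1 : Module.Finite F (F[X] ⧸ Ideal.span {p}) :=
    (AdjoinRoot.powerBasis hp).finite
  have h2 := Module.natCard_eq_pow_finrank (K := F) (V := F[X] ⧸ Ideal.span {p})
  rw [h2, finrank_quotient_span_eq_natDegree]

lemma prodN_prime {p : F[X]} (hp : Prime p) : prodN F (algebraMap F[X] (RatFunc F) p) = 1 := by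
  classical
  have hp0 : p ≠ 0 := hp.ne_zero
  let v : HeightOneSpectrum F[X] := ⟨Ideal.span {p}, (Ideal.span_singleton_prime hp0).2 hp,
    by rw [Ne, Ideal.span_singleton_eq_bot]; exact hp0⟩
  have hv : vK F (some v) (algebraMap F[X] (RatFunc F) p) = exp (-1 : ℤ) := by
    show v.valuation (RatFunc F) (algebraMap F[X] (RatFunc F) p) = _
    rw [HeightOneSpectrum.valuation_of_algebraMap]
    exact v.intValuation_singleton hp0 rfl
  have hv' : ∀ v' : HeightOneSpectrum F[X], v' ≠ v →
      vK F (some v') (algebraMap F[X] (RatFunc F) p) = 1 := by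
    intro v' hne
    rw [v_fin_eq_one]
    intro hmem
    apply hne
    have h1 : v.asIdeal ≤ v'.asIdeal := by
      show Ideal.span {p} ≤ _
      rw [Ideal.span_le]
      simpa using hmem
    have hmax : v.asIdeal.IsMaximal := v.isPrime.isMaximal v.ne_bot
    exact HeightOneSpectrum.ext (hmax.eq_of_le v'.isPrime.ne_top h1).symm
  unfold prodN
  have hsub : Function.mulSupport (fun w : Pl F =>
      (qn F w : ℝ) ^ (log (vK F w (algebraMap F[X] (RatFunc F) p)))) ⊆
      (({none, some v} : Finset (Pl F)) : Set (Pl F)) := by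
    intro w hw
    cases w with
    | none => simp
    | some v' =>
      by_cases h : v' = v
      · subst h; simp
      · exfalso
        apply hw
        show (qn F (some v') : ℝ) ^ (log (vK F (some v') _)) = 1
        rw [hv' v' h, log_one, zpow_zero]
  rw [finprod_eq_prod_of_mulSupport_subset _ hsub, Finset.prod_pair (by simp), hv,
    vinf_poly F hp0, log_exp, log_exp]
  have hq : (qn F (some v) : ℝ) = (qn F none : ℝ) ^ (p.natDegree : ℤ) := by
    have h1 : qn F (some v) = qn F none ^ p.natDegree := card_quot F hp0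
    rw [h1]; push_cast; rw [zpow_natCast]
  rw [hq, ← zpow_mul, ← zpow_add₀ (qn_pos F none).ne']
  simp

lemma prodN_unit {u : F[X]} (hu : IsUnit u) : prodN F (algebraMap F[X] (RatFunc F) u) = 1 := by
  have hu0 : u ≠ 0 := hu.ne_zero
  unfold prodN
  have : ∀ w : Pl F, (qn F w : ℝ) ^ (log (vK F w (algebraMap F[X] (RatFunc F) u))) = 1 := by
    intro w
    cases w with
    | none =>
      rw [vinf_poly F hu0, Polynomial.natDegree_eq_zero_of_isUnit hu]
      simp
    | some v =>
      have h1 : vK F (some v) (algebraMap F[X] (RatFunc F) u) = 1 := by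
        rw [v_fin_eq_one]
        intro hmem
        exact v.isPrime.ne_top (Ideal.eq_top_of_isUnit_mem _ hmem hu)
      rw [h1, log_one, zpow_zero]
  simp only [this]
  exact finprod_one

lemma prodN_poly (p : F[X]) (hp : p ≠ 0) : prodN F (algebraMap F[X] (RatFunc F) p) = 1 := by
  induction p using UniqueFactorizationMonoid.induction_on_prime with
  | h₁ => exact absurd rfl hp
  | h₂ u hu => exact prodN_unit F hu
  | h₃ a p ha hpp ih =>
    rw [map_mul, prodN_mul F (am_ne F hpp.ne_zero) (am_ne F ha), prodN_prime F hpp, one_mul]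
    exact ih ha

/-- **the product formula** -/
theorem prodN_eq_one {x : RatFunc F} (hx : x ≠ 0) : prodN F x = 1 := by
  have hn : x.num ≠ 0 := RatFunc.num_ne_zero hx
  have hd : x.denom ≠ 0 := RatFunc.denom_ne_zero x
  have h1 : x * algebraMap F[X] (RatFunc F) x.denom = algebraMap F[X] (RatFunc F) x.num := by
    have := RatFunc.num_div_denom x
    rw [div_eq_iff (am_ne F hd)] at this
    exact this.symm
  have h2 := prodN_mul F hx (am_ne F hd)
  rw [h1, prodN_poly F _ hn, prodN_poly F _ hd, mul_one] at h2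
  exact h2.symm

/-! ### the norm of ideles -/

lemma idele_ne (a : IK F) (w : Pl F) : Valued.v ((a w : (Kc F w)ˣ) : Kc F w) ≠ (0 : ℤᵐ⁰) :=
  (Valuation.ne_zero_iff _).2 (a w).ne_zero

lemma idNorm_supp (a : IK F) : (Function.mulSupport fun w : Pl F =>
    (qn F w : ℝ) ^ (log (Valued.v ((a w : (Kc F w)ˣ) : Kc F w)))).Finite := by
  refine (Filter.eventually_cofinite.1 a.2).subset ?_
  intro w hw h
  apply hw
  have h' : Valued.v ((a w : (Kc F w)ˣ) : Kc F w) = (1 : ℤᵐ⁰) := h
  show (qn F w : ℝ) ^ (log (Valued.v ((a w : (Kc F w)ˣ) : Kc F w))) = 1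
  rw [h', log_one, zpow_zero]

lemma idNorm_mul (a b : IK F) : idNorm F (a * b) = idNorm F a * idNorm F b := by
  unfold idNorm
  rw [← finprod_mul_distrib (idNorm_supp F a) (idNorm_supp F b)]
  refine finprod_congr fun w => ?_
  have h0 : (((a * b) w : (Kc F w)ˣ) : Kc F w) =
      ((a w : (Kc F w)ˣ) : Kc F w) * ((b w : (Kc F w)ˣ) : Kc F w) := rfl
  rw [h0, map_mul, log_mul (idele_ne F a w) (idele_ne F b w), zpow_add₀ (qn_pos F w).ne']

lemma idNorm_of_unit (a : IK F) (h : ∀ w, Valued.v ((a w : (Kc F w)ˣ) : Kc F w) = (1 : ℤᵐ⁰)) :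
    idNorm F a = 1 := by
  unfold idNorm
  have : ∀ w : Pl F, (qn F w : ℝ) ^ (log (Valued.v ((a w : (Kc F w)ˣ) : Kc F w))) = 1 := by
    intro w; rw [h w, log_one, zpow_zero]
  simp only [this]
  exact finprod_one

lemma idNorm_one : idNorm F 1 = 1 := idNorm_of_unit F 1 fun w => by
  have : (((1 : IK F) w : (Kc F w)ˣ) : Kc F w) = 1 := rfl
  rw [this, map_one]

lemma idNorm_pos (a : IK F) : 0 < idNorm F a := by
  have h0 : 0 ≤ idNorm F a := finprod_nonneg fun w => zpow_nonneg (qn_pos F w).le _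
  refine lt_of_le_of_ne h0 fun h => ?_
  have h1 : idNorm F (a * a⁻¹) = 1 := by rw [mul_inv_cancel, idNorm_one]
  rw [idNorm_mul, ← h, zero_mul] at h1
  exact zero_ne_one h1

lemma idNorm_globI (x : (RatFunc F)ˣ) : idNorm F (globI F x) = 1 := by
  rw [← prodN_eq_one F (x := (x : RatFunc F)) x.ne_zero]
  unfold idNorm prodN
  refine finprod_congr fun w => ?_
  have h0 : ((globI F x w : (Kc F w)ˣ) : Kc F w) = emb F w x := rfl
  rw [h0, v_emb]

/-- the quasi-character `‖·‖ ^ s` -/
def nrmChar (s : ℝ) : IK F →* ℂˣ where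
  toFun a := Units.mk0 (((idNorm F a) ^ s : ℝ) : ℂ)
    (by exact_mod_cast (Real.rpow_pos_of_pos (idNorm_pos F a) s).ne')
  map_one' := by
    apply Units.ext
    simp [idNorm_one]
  map_mul' a b := by
    apply Units.ext
    simp only [Units.val_mk0, Units.val_mul]
    rw [idNorm_mul, Real.mul_rpow (idNorm_pos F a).le (idNorm_pos F b).le]
    push_cast
    rfl

lemma nrmChar_val (s : ℝ) (a : IK F) : ((nrmChar F s a : ℂˣ) : ℂ) = (((idNorm F a) ^ s : ℝ) : ℂ) :=
  rfl

lemma isHecke_nrmChar (s : ℝ) : IsHecke F (nrmChar F s) := by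
  refine ⟨fun x => ?_, 0, fun u hu => ?_⟩
  · apply Units.ext
    rw [nrmChar_val, idNorm_globI, Real.one_rpow]
    simp
  · apply Units.ext
    rw [nrmChar_val, idNorm_of_unit F u (fun w => (hu w).1), Real.one_rpow]
    simp

/-- the embedding of the constants -/
def constMap : ℂ →ₗ[ℂ] (GA F → ℂ) where
  toFun c := fun _ => c
  map_add' _ _ := rfl
  map_smul' _ _ := rfl

lemma isAutForm_const (c : ℂ) : IsAutForm F (constMap F c) := by
  refine ⟨fun _ _ => rfl, ⟨0, fun _ _ _ => rfl⟩, none, fun n => ?_⟩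
  have h1 : spanAt F none (constMap F c) ≤ LinearMap.range (constMap F) := by
    refine Submodule.span_le.mpr ?_
    rintro _ ⟨g, rfl⟩
    exact ⟨c, rfl⟩
  exact Submodule.finiteDimensional_of_le (inf_le_left.trans h1)

lemma isAutomorphic_one : IsAutomorphic F (1 : Representation ℂ (GA F) ℂ) := by
  refine ⟨⟨inferInstance, fun N _ => ?_⟩, LinearMap.range (constMap F), ?_, ?_, ?_⟩
  · exact eq_bot_or_eq_top N
  · rintro g _ ⟨c, rfl⟩
    exact ⟨c, rfl⟩
  · rintro _ ⟨c, rfl⟩
    exact ⟨isAutForm_const F c, trivial⟩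
  · refine ⟨(LinearMap.proj (1 : GA F)).comp (LinearMap.range (constMap F)).subtype, ?_, ?_⟩
    · intro c
      exact ⟨⟨constMap F c, c, rfl⟩, rfl⟩
    · intro g f f' hff
      obtain ⟨c, hc⟩ := f.2
      show (f' : GA F → ℂ) 1 = (f : GA F → ℂ) 1
      rw [hff, ← hc]
      rfl

/-- (piece H) the trivial representation is an isobaric automorphic representation -/
theorem trivial_isobaric : IsIsobaric F (1 : Representation ℂ (GA F) ℂ) := by
  refine ⟨isAutomorphic_one F, Or.inr ⟨nrmChar F (1 / 2), nrmChar F (-(1 / 2)),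
    isHecke_nrmChar F _, isHecke_nrmChar F _, ⟨1, zero_le_one, fun a => ?_⟩, constMap F, ?_, ?_, ?_⟩⟩
  · rw [nrmChar_val, nrmChar_val, ← Complex.ofReal_div, Complex.norm_real, ← Real.rpow_sub
      (idNorm_pos F a), Real.norm_of_nonneg (Real.rpow_nonneg (idNorm_pos F a).le _)]
    norm_num
  · intro h
    have := congrFun (LinearMap.congr_fun h 1) 1
    exact one_ne_zero (α := ℂ) this
  · intro g x; rfl
  · intro x
    refine ⟨⟨0, fun _ _ _ => rfl⟩, fun a b d g => ?_⟩
    show x = _ * x
    have hd : idNorm F (a / d) = idNorm F a * (idNorm F d)⁻¹ := by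
      have h1 := idNorm_mul F (a / d) d
      rw [div_mul_cancel] at h1
      rw [h1, mul_assoc, mul_inv_cancel₀ (idNorm_pos F d).ne', mul_one]
    rw [nrmChar_val, nrmChar_val, hd, ← Complex.ofReal_mul, ← Complex.ofReal_mul,
      Real.mul_rpow (idNorm_pos F a).le (inv_nonneg.mpr (idNorm_pos F d).le),
      Real.inv_rpow (idNorm_pos F d).le]
    have h2 : (idNorm F a) ^ (-(1 / 2) : ℝ) * (idNorm F d) ^ (1 / 2 : ℝ) *
        ((idNorm F a) ^ (1 / 2 : ℝ) * ((idNorm F d) ^ (1 / 2 : ℝ))⁻¹) = 1 := by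
      rw [Real.rpow_neg (idNorm_pos F a).le]
      have ha := (Real.rpow_pos_of_pos (idNorm_pos F a) (1 / 2)).ne'
      have hd := (Real.rpow_pos_of_pos (idNorm_pos F d) (1 / 2)).ne'
      field_simp
    rw [h2]; simp

end Run7.h634.AF
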