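import Pool.Agent.Run7.h634.AF.A
import Pool.Agent.Run7.h634.AF.C
import Pool.Agent.Run7.h634.AF.D
import Pool.Agent.Run7.h634.AF.E
import Pool.Agent.Run7.h634.AF.H

/-!
# Piece M: the theorem from the two forms
-/

set_option autoImplicit false
noncomputable section

namespace Run7.h634.AF

open IsDedekindDomain Polynomial WithZero RestrictedProduct Run7.h866.AF

variable (F : Type) [Field F] [Fintype F]

/-- a nonzero intertwiner from an irreducible representation is injective -/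
lemma inj_of_ne {V : Type} [AddCommGroup V] [Module ℂ V] {ρ : Representation ℂ (GA F) V}
    {w : Pl F} {A : IrrRep (Kc F w)} {T : A.V →ₗ[ℂ] V} (hT : T ≠ 0)
    (he : ∀ g x, T (A.ρ g x) = ρ (loc F w g) (T x)) : Function.Injective T := by
  have hst : ∀ g, ∀ x ∈ LinearMap.ker T, A.ρ g x ∈ LinearMap.ker T := by
    intro g x hx
    rw [LinearMap.mem_ker] at hx ⊢
    rw [he, hx, map_zero]
  rcases A.irred.2 _ hst with h | h
  · exact LinearMap.ker_eq_bot.mp h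
  · exact absurd (LinearMap.ker_eq_top.mp h) hT

/-- the trivial representation has no ramified component, and its components are trivial -/
lemma comp_trivial {w : Pl F} {A : IrrRep (Kc F w)}
    (h : HasComp F (1 : Representation ℂ (GA F) ℂ) w A) :
    ∀ g x, A.ρ g x = x := by
  obtain ⟨T, hT, he⟩ := h
  have hinj := inj_of_ne F hT he
  intro g x
  apply hinj
  rw [he]; rfl

lemma hasComp_trivial {w : Pl F} {A : IrrRep (Kc F w)} (h : ∀ g x, A.ρ g x = x) :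
    HasComp F (1 : Representation ℂ (GA F) ℂ) w A := by
  obtain ⟨x, hx⟩ := (nontrivial_iff_exists_ne (0 : A.V)).mp A.irred.1
  obtain ⟨T, hT⟩ : ∃ T : Module.Dual ℂ A.V, T x ≠ 0 := by
    by_contra hcon
    push Not at hcon
    exact hx ((Module.forall_dual_apply_eq_zero_iff ℂ x).mp hcon)
  refine ⟨T, fun h0 => hT (by rw [h0]; rfl), fun g x => ?_⟩
  rw [h g x]; rfl

/-- smoothness of quotients of spaces of smooth functions -/
lemma smoothAt_of {V : Type} [AddCommGroup V] [Module ℂ V] {ρ : Representation ℂ (GA F) V}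
    {S : Submodule ℂ (GA F → ℂ)} (hS : ∀ g, ∀ f ∈ S, rt F g f ∈ S)
    (hSsm : ∀ f ∈ S, ∃ m, ∀ u ∈ U F m, ∀ g, f (g * u) = f g) {φ : S →ₗ[ℂ] V}
    (hφ : Function.Surjective φ)
    (hφe : ∀ (g : GA F) (f f' : S), (f' : GA F → ℂ) = rt F g f → φ f' = ρ g (φ f)) (w : Pl F) :
    SmoothAt F ρ w := by
  intro x
  obtain ⟨f, rfl⟩ := hφ x
  obtain ⟨m, hm⟩ := hSsm f f.2
  refine ⟨m w, fun k hk => ?_⟩
  have h1 := hφe (loc F w k) f ⟨_, hS (loc F w k) f f.2⟩ rfl
  rw [← h1]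
  congr 1
  apply Subtype.ext
  funext g
  exact hm _ (loc_mem_U hk) g

/-- Steinberg vectors in quotients -/
lemma isSt_of {V : Type} [AddCommGroup V] [Module ℂ V] {ρ : Representation ℂ (GA F) V}
    {S : Submodule ℂ (GA F → ℂ)} (hS : ∀ g, ∀ f ∈ S, rt F g f ∈ S) {φ : S →ₗ[ℂ] V}
    (hφe : ∀ (g : GA F) (f f' : S), (f' : GA F → ℂ) = rt F g f → φ f' = ρ g (φ f))
    (w : Pl F) (R : Res (Kc F w)) (h : S) (h0 : φ h ≠ 0)
    (iw : ∀ k ∈ Iw (Kc F w), rt F (loc F w k) h = h)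
    (cen : ∀ z : (Kc F w)ˣ, rt F (loc F w (Run7.h866.AF.dg z z)) h = h)
    (eta : rt F (loc F w (et R)) h = -(h : GA F → ℂ))
    (sum : ∀ y : S, (y : GA F → ℂ) =
      h + ∑ y : R.k, rt F (loc F w (nU (R.r y) * Run7.h866.AF.w0)) h → φ y = 0) :
    IsSt R (resAt F ρ w) (φ h) where
  ne := h0
  iw k hk := (hφe (loc F w k) h h (iw k hk).symm).symm
  cen z := (hφe _ h h (cen z).symm).symm
  eta := by
    have := hφe (loc F w (et R)) h (-h) eta.symm
    rw [map_neg] at this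
    exact this.symm
  sum := by
    let τ := Run7.h634.L.subRep (rt F) S hS
    have h1 : ∀ g : GA F, φ (τ g h) = ρ g (φ h) := fun g => hφe g h (τ g h) rfl
    have h2 : φ (h + ∑ y : R.k, τ (loc F w (nU (R.r y) * Run7.h866.AF.w0)) h) = 0 := by
      apply sum
      rw [Submodule.coe_add, Submodule.coe_sum]
      rfl
    rw [map_add, map_sum] at h2
    simp only [h1] at h2
    exact h2

/-- spherical vectors in quotients -/
lemma isSph_of {V : Type} [AddCommGroup V] [Module ℂ V] {ρ : Representation ℂ (GA F) V}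
    {S : Submodule ℂ (GA F → ℂ)} (hS : ∀ g, ∀ f ∈ S, rt F g f ∈ S) {φ : S →ₗ[ℂ] V}
    (hφe : ∀ (g : GA F) (f f' : S), (f' : GA F → ℂ) = rt F g f → φ f' = ρ g (φ f))
    (w : Pl F) (R : Res (Kc F w)) (h : S) (h0 : φ h ≠ 0)
    (hh : IsSph R (resAt F (rt F) w) (h : GA F → ℂ)) :
    IsSph R (resAt F ρ w) (φ h) where
  ne := h0
  sph k hk := (hφe (loc F w k) h h (hh.sph k hk).symm).symm
  cen z := (hφe _ h h (hh.cen z).symm).symm
  sum := by
    let τ := Run7.h634.L.subRep (rt F) S hS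
    have h1 : ∀ g : GA F, φ (τ g h) = ρ g (φ h) := fun g => hφe g h (τ g h) rfl
    have h2 : τ (loc F w (et R)) h +
        ∑ y : R.k, τ (loc F w (nU (R.r y) * Run7.h866.AF.w0 * et R)) h =
        ((Fintype.card R.k : ℂ) + 1) • h := by
      apply Subtype.ext
      rw [Submodule.coe_add, Submodule.coe_sum]
      exact hh.sum
    have h3 := congrArg φ h2
    rw [map_add, map_sum, map_smul] at h3
    simp only [h1] at h3
    exact h3

/-- **the theorem from the two forms** -/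
theorem main_of
    (form_one : ∃ h : GA F → ℂ,
      (∀ γ g, h (glob F γ * g) = h g) ∧
      (∃ m, ∀ u ∈ U F m, ∀ g, h (g * u) = h g) ∧
      (∀ k ∈ Iw (Kc F none), rt F (loc F none k) h = h) ∧
      (∀ z : (Kc F none)ˣ, rt F (loc F none (Run7.h866.AF.dg z z)) h = h) ∧
      (rt F (loc F none (et (Rinf F))) h = -h) ∧ h ≠ 0 ∧
      (∃ c : ℂ, h + ∑ y : (Rinf F).k,
          rt F (loc F none (nU ((Rinf F).r y) * Run7.h866.AF.w0)) h = fun _ => c) ∧
      ∀ (w : Pl F) (R : Res (Kc F w)), w ≠ none → IsSph R (resAt F (rt F) w) h)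
    (form_two : ∃ h : GA F → ℂ,
      (∀ γ g, h (glob F γ * g) = h g) ∧
      (∃ m, ∀ u ∈ U F m, ∀ g, h (g * u) = h g) ∧ IsCuspFun F h ∧
      IsSt (Rinf F) (resAt F (rt F) none) h) :
    ¬ ∃ l, IsLocalLifting F none l := by
  rintro ⟨l, -, hl⟩
  obtain ⟨h₁, l₁, s₁, iw₁, cen₁, eta₁, ne₁, ⟨c, sum₁⟩, sph₁⟩ := form_one
  obtain ⟨h₂, l₂, s₂, cusp₂, st₂⟩ := form_two
  have hsp : ∀ h : GA F → ℂ, ∀ g, ∀ f ∈ Submodule.span ℂ (Set.range fun g : GA F => rt F g h),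
      rt F g f ∈ Submodule.span ℂ (Set.range fun g : GA F => rt F g h) := by
    intro h g f hf
    induction hf using Submodule.span_induction with
    | mem x hx =>
      obtain ⟨g', rfl⟩ := hx
      show rt F g (rt F g' h) ∈ _
      rw [← Module.End.mul_apply, ← map_mul]
      exact Submodule.subset_span ⟨_, rfl⟩
    | zero => rw [map_zero]; exact zero_mem _
    | add x y _ _ hx hy => rw [map_add]; exact add_mem hx hy
    | smul a x _ hx => rw [map_smul]; exact Submodule.smul_mem _ _ hx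
  have hself : ∀ h : GA F → ℂ,
      h ∈ Submodule.span ℂ (Set.range fun g : GA F => rt F g h) := by
    intro h
    refine Submodule.subset_span ⟨1, ?_⟩
    show rt F 1 h = h
    rw [map_one]; rfl
  -- the first representation
  set S₁ := Submodule.span ℂ (Set.range fun g : GA F => rt F g h₁) with hS₁
  let M₁ : Submodule ℂ (GA F → ℂ) := S₁ ⊓ LinearMap.range (constMap F)
  have hM₁st : ∀ g, ∀ f ∈ M₁, rt F g f ∈ M₁ := by
    rintro g f ⟨hf1, b, rfl⟩
    exact ⟨hsp h₁ g _ hf1, b, rfl⟩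
  have hh₁ : h₁ ∉ M₁ := by
    rintro ⟨-, b, hb⟩
    apply ne₁
    rw [← hb] at eta₁ ⊢
    have h3 : (b : ℂ) = -b := congrFun eta₁ 1
    have h4 : b = 0 := by
      have : (2 : ℂ) * b = 0 := by linear_combination h3
      simpa using this
    rw [h4, map_zero]
  obtain ⟨V₁, _, _, ρ₁, φ₁, irr₁, sur₁, eq₁, n₁, kill₁⟩ :=
    exists_irred_quotient S₁ M₁ (hsp h₁) hM₁st inf_le_left ⟨h₁, hself h₁⟩ hh₁ hS₁
  have adm₁ := st_adm none (Rinf F) h₁ iw₁ cen₁ eta₁ (fun _ => c) (fun _ => rfl) sum₁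
  have aut₁ : ∀ f ∈ S₁, IsAutForm F f := fun f hf => autForm_span F none h₁ l₁ s₁ adm₁ f hf
  have isaut₁ : IsAutomorphic F ρ₁ :=
    ⟨irr₁, S₁, hsp h₁, fun f hf => ⟨aut₁ f hf, trivial⟩, φ₁, sur₁, eq₁⟩
  have sm₁ : ∀ w, SmoothAt F ρ₁ w := fun w =>
    smoothAt_of F (hsp h₁) (fun f hf => (aut₁ f hf).smooth) sur₁ eq₁ w
  have st₁ : IsSt (Rinf F) (resAt F ρ₁ none) (φ₁ ⟨h₁, hself h₁⟩) := by
    refine isSt_of F (hsp h₁) eq₁ none (Rinf F) ⟨h₁, hself h₁⟩ n₁ iw₁ cen₁ eta₁ ?_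
    intro y hy
    apply kill₁
    refine ⟨y.2, c, ?_⟩
    rw [hy]
    exact sum₁.symm
  -- the second representation
  set S₂ := Submodule.span ℂ (Set.range fun g : GA F => rt F g h₂) with hS₂
  obtain ⟨V₂, _, _, ρ₂, φ₂, irr₂, sur₂, eq₂, n₂, kill₂⟩ :=
    exists_irred_quotient S₂ ⊥ (hsp h₂) (fun g f hf => by
      rw [(Submodule.mem_bot ℂ).mp hf, map_zero]; exact zero_mem _) bot_le ⟨h₂, hself h₂⟩
      (fun h => st₂.ne ((Submodule.mem_bot ℂ).mp h)) hS₂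
  have adm₂ := st_adm none (Rinf F) h₂ st₂.iw st₂.cen st₂.eta 0 (fun _ => map_zero _) st₂.sum
  have aut₂ : ∀ f ∈ S₂, IsAutForm F f := fun f hf => autForm_span F none h₂ l₂ s₂ adm₂ f hf
  have isaut₂ : IsAutomorphic F ρ₂ :=
    ⟨irr₂, S₂, hsp h₂, fun f hf => ⟨aut₂ f hf, trivial⟩, φ₂, sur₂, eq₂⟩
  have iscusp₂ : IsCuspidal F ρ₂ :=
    ⟨irr₂, S₂, hsp h₂, fun f hf => ⟨aut₂ f hf, cusp_span F h₂ cusp₂ f hf⟩, φ₂, sur₂, eq₂⟩
  have sm₂ : ∀ w, SmoothAt F ρ₂ w := fun w =>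
    smoothAt_of F (hsp h₂) (fun f hf => (aut₂ f hf).smooth) sur₂ eq₂ w
  have st₂' : IsSt (Rinf F) (resAt F ρ₂ none) (φ₂ ⟨h₂, hself h₂⟩) := by
    refine isSt_of F (hsp h₂) eq₂ none (Rinf F) ⟨h₂, hself h₂⟩ n₂ st₂.iw st₂.cen st₂.eta ?_
    intro y hy
    apply kill₂
    rw [hy]
    exact (Submodule.mem_bot ℂ).mpr st₂.sum
  -- the liftings
  have lift₂ : IsLift F ρ₂ ρ₂ := ⟨⟨isaut₂, Or.inl iscusp₂⟩, fun _ _ _ h => h⟩
  have lift₁ : IsLift F ρ₁ (1 : Representation ℂ (GA F) ℂ) := by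
    refine ⟨trivial_isobaric F, fun w A hA hcomp => ?_⟩
    obtain ⟨T, hT, he⟩ := hcomp
    have hinj := inj_of_ne F hT he
    cases w with
    | none =>
      exfalso
      obtain ⟨x, hx0, hx⟩ := hA
      apply hx0
      apply hinj
      rw [map_zero]
      refine st_not_unram ρ₁ irr₁ none (sm₁ none) (Rinf F) _ st₁ (T x) fun k hk => ?_
      rw [← he, hx k hk]
    | some v =>
      obtain ⟨R⟩ := exists_res F (some v)
      have sp := isSph_of F (hsp h₁) eq₁ (some v) R ⟨h₁, hself h₁⟩ n₁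
        (sph₁ (some v) R (by simp))
      have htriv := sph_trivial ρ₁ irr₁ (some v) (sm₁ (some v)) R _ sp
      refine hasComp_trivial F fun g x => ?_
      apply hinj
      rw [he, htriv]
  -- the common component
  obtain ⟨A, hA₁, hA₂⟩ := st_comp ρ₁ ρ₂ irr₁ irr₂ none (sm₁ none) (sm₂ none) (Rinf F) _ _ st₁ st₂'
  have c₁ := hl V₁ ℂ ρ₁ (1 : Representation ℂ (GA F) ℂ) isaut₁ lift₁ A hA₁
  have c₂ := hl V₂ V₂ ρ₂ ρ₂ isaut₂ lift₂ A hA₂
  have htr := comp_trivial F c₁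
  obtain ⟨x, hx⟩ := (nontrivial_iff_exists_ne (0 : (l A).V)).mp (l A).irred.1
  obtain ⟨T, hT, he⟩ := c₂
  have hinj := inj_of_ne F hT he
  apply hx
  apply hinj
  rw [map_zero]
  refine st_not_unram ρ₂ irr₂ none (sm₂ none) (Rinf F) _ st₂' (T x) fun k _ => ?_
  rw [← he, htr]

end Run7.h634.AF
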