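import Pool.Agent.Run7.h634.AF.SA

/-!
# Adelic reduction: integrality at the finite places
-/

set_option autoImplicit false
noncomputable section

namespace Run7.h634.AF

open IsDedekindDomain Polynomial WithZero RestrictedProduct Run7.h866.AF

/-- local Iwasawa decomposition -/
lemma iwasawa {L : Type} [Field L] (v : Valuation L ℤᵐ⁰) (y : GL (Fin 2) L) :
    ∃ κ ∈ Run7.h634.L.GLint v, (y * κ).val 1 0 = 0 := by
  by_cases h : v (y.val 1 0) ≤ v (y.val 1 1)
  · have hne : y.val 1 1 ≠ 0 := by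
      intro h0
      rw [h0, map_zero] at h
      have h1 : y.val 1 0 = 0 := (map_eq_zero _).mp (le_antisymm h zero_le)
      have := Run7.h634.L.det_ne y
      rw [h0, h1] at this; simp at this
    refine ⟨Run7.h634.L.lo (-(y.val 1 0 / y.val 1 1)), Run7.h634.L.lo_mem_GLint ?_, ?_⟩
    · rw [Valuation.map_neg, map_div₀]
      exact div_le_one_of_le₀ h zero_le
    · rw [Run7.h634.L.mul_val_ij]; simp; field_simp; ring
  · have h' := le_of_lt (not_le.mp h)
    have hne : y.val 1 0 ≠ 0 := by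
      intro h0
      rw [h0, map_zero] at h
      exact h zero_le
    refine ⟨Run7.h634.L.w0 * Run7.h634.L.lo (-(y.val 1 1 / y.val 1 0)),
      mul_mem (Run7.h634.L.w0_mem_GLint _) (Run7.h634.L.lo_mem_GLint ?_), ?_⟩
    · rw [Valuation.map_neg, map_div₀]
      exact div_le_one_of_le₀ h' zero_le
    · rw [← mul_assoc, Run7.h634.L.mul_val_ij, Run7.h634.L.mul_val_ij, Run7.h634.L.mul_val_ij]
      simp; field_simp; ring

variable (F : Type) [Field F]

lemma glob_apply (γ : GL (Fin 2) (RatFunc F)) (w : Pl F) :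
    glob F γ w = Matrix.GeneralLinearGroup.map (emb F w) γ := rfl

lemma glob_val (γ : GL (Fin 2) (RatFunc F)) (w : Pl F) (i j : Fin 2) :
    (glob F γ w).val i j = emb F w (γ.val i j) := rfl

lemma glob_mem_iff (γ : GL (Fin 2) (RatFunc F)) (w : Pl F) :
    glob F γ w ∈ Cong (Kc F w) 0 ↔ (∀ i j, vK F w (γ.val i j) ≤ 1) ∧ vK F w γ.val.det = 1 := by
  rw [cong_zero_eq, Run7.h634.L.mem_GLint]
  have h1 : ∀ i j, Valued.v ((glob F γ w).val i j) = vK F w (γ.val i j) := by
    intro i j; rw [glob_val, v_emb]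
  have h2 : Valued.v ((glob F γ w).val.det) = vK F w γ.val.det := by
    rw [Run7.h634.L.det_val, Run7.h634.L.det_val, glob_val, glob_val, glob_val, glob_val,
      ← map_mul, ← map_mul, ← map_sub, v_emb]
  simp only [h1, h2]

lemma dgK_mem {a d : (RatFunc F)ˣ} {w : Pl F} (ha : vK F w (a : RatFunc F) = 1)
    (hd : vK F w (d : RatFunc F) = 1) : glob F (Run7.h634.L.dg a d) w ∈ Cong (Kc F w) 0 := by
  rw [glob_mem_iff]
  refine ⟨fun i j => ?_, ?_⟩
  · rcases (by omega : i = 0 ∨ i = 1) with rfl | rfl <;>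
      rcases (by omega : j = 0 ∨ j = 1) with rfl | rfl <;> simp [ha, hd]
  · simp [ha, hd]

lemma upK_mem {x : RatFunc F} {w : Pl F} (hx : vK F w x ≤ 1) :
    glob F (Run7.h634.L.up x) w ∈ Cong (Kc F w) 0 := by
  rw [glob_mem_iff]
  refine ⟨fun i j => ?_, ?_⟩
  · rcases (by omega : i = 0 ∨ i = 1) with rfl | rfl <;>
      rcases (by omega : j = 0 ∨ j = 1) with rfl | rfl <;> simp [hx]
  · simp

lemma glob_up (x : RatFunc F) (w : Pl F) :
    glob F (Run7.h634.L.up x) w = Run7.h634.L.up (emb F w x) := by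
  apply Run7.h634.L.gl_ext <;> simp [glob_val]

lemma glob_dg (a d : (RatFunc F)ˣ) (w : Pl F) : glob F (Run7.h634.L.dg a d) w =
    Run7.h634.L.dg (Units.map (emb F w).toMonoidHom a) (Units.map (emb F w).toMonoidHom d) := by
  apply Run7.h634.L.gl_ext <;> simp [glob_val]

/-- making one component integral -/
lemma borel_one (v : HeightOneSpectrum F[X]) (y : GL (Fin 2) (Kc F (some v))) :
    ∃ γ : GL (Fin 2) (RatFunc F), γ.val 1 0 = 0 ∧
      (∀ v' : HeightOneSpectrum F[X], v' ≠ v → glob F γ (some v') ∈ Cong (Kc F (some v')) 0) ∧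
      glob F γ (some v) * y ∈ Cong (Kc F (some v)) 0 := by
  obtain ⟨κ, hκ, h10⟩ := iwasawa Valued.v y
  obtain ⟨p, hp0, hpI, hpv, hpv'⟩ := exists_gen F v
  obtain ⟨P, hP⟩ : ∃ P : (RatFunc F)ˣ, (P : RatFunc F) = algebraMap F[X] (RatFunc F) p :=
    ⟨Units.mk0 _ (am_ne F hp0), rfl⟩
  set y' := y * κ with hy'
  have hdet := Run7.h634.L.det_ne y'
  rw [h10, mul_zero, sub_zero] at hdet
  have hα : y'.val 0 0 ≠ 0 := left_ne_zero_of_mul hdet
  have hδ : y'.val 1 1 ≠ 0 := right_ne_zero_of_mul hdet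
  -- scaling to units
  have hunit : ∀ x : Kc F (some v), x ≠ 0 →
      Valued.v (emb F (some v) ((P ^ (log (Valued.v x)) : (RatFunc F)ˣ) : RatFunc F) * x) =
        (1 : ℤᵐ⁰) := by
    intro x hx
    have hx' : Valued.v x ≠ (0 : ℤᵐ⁰) := (Valuation.ne_zero_iff _).2 hx
    rw [map_mul, v_emb, Units.val_zpow_eq_zpow_val, map_zpow₀, hP, hpv, ← WithZero.exp_zsmul]
    nth_rewrite 2 [← exp_log hx']
    rw [← exp_add]; simp
  set a := P ^ (log (Valued.v (y'.val 0 0))) with ha
  set d := P ^ (log (Valued.v (y'.val 1 1))) with hd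
  have hua := hunit _ hα
  have hud := hunit _ hδ
  rw [← ha] at hua
  rw [← hd] at hud
  set u₁ := emb F (some v) (a : RatFunc F) * y'.val 0 0 with hu₁
  set u₂ := emb F (some v) (d : RatFunc F) * y'.val 1 1 with hu₂
  have hu₁0 : u₁ ≠ 0 := by intro h; rw [h, map_zero] at hua; exact zero_ne_one hua
  have hu₂0 : u₂ ≠ 0 := by intro h; rw [h, map_zero] at hud; exact zero_ne_one hud
  obtain ⟨β, hβ1, hβ2⟩ := sa_one F v (emb F (some v) (a : RatFunc F) * y'.val 0 1 / u₂)
  refine ⟨Run7.h634.L.up (-β) * Run7.h634.L.dg a d, ?_, ?_, ?_⟩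
  · rw [Run7.h634.L.mul_val_ij]; simp
  · intro v' hv'
    have hPv' : ∀ n : ℤ, vK F (some v') ((P ^ n : (RatFunc F)ˣ) : RatFunc F) = 1 := by
      intro n
      rw [Units.val_zpow_eq_zpow_val, map_zpow₀, hP, hpv' v' hv', one_zpow]
    rw [map_mul]
    refine mul_mem (upK_mem F ?_) (dgK_mem F (hPv' _) (hPv' _))
    rw [Valuation.map_neg]; exact hβ2 v' hv'
  · have h1 : glob F (Run7.h634.L.up (-β) * Run7.h634.L.dg a d) (some v) * y' =
        Run7.h634.L.up (emb F (some v) (a : RatFunc F) * y'.val 0 1 / u₂ - emb F (some v) β) *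
          Run7.h634.L.dg (Units.mk0 u₁ hu₁0) (Units.mk0 u₂ hu₂0) := by
      have h2 : glob F (Run7.h634.L.up (-β) * Run7.h634.L.dg a d) (some v) =
          glob F (Run7.h634.L.up (-β)) (some v) * glob F (Run7.h634.L.dg a d) (some v) := by
        rw [map_mul]; rfl
      rw [h2, glob_up, glob_dg]
      apply Run7.h634.L.gl_ext
      · simp [Run7.h634.L.mul_val_ij, -Units.val_mul, h10, hu₁]
        rfl
      · simp [Run7.h634.L.mul_val_ij, -Units.val_mul, h10]
        field_simp
        rw [hu₂]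
        ring
      · simp [Run7.h634.L.mul_val_ij, -Units.val_mul, h10]
      · simp [Run7.h634.L.mul_val_ij, -Units.val_mul, h10, hu₂]
        rfl
    have h3 : glob F (Run7.h634.L.up (-β) * Run7.h634.L.dg a d) (some v) * y =
        glob F (Run7.h634.L.up (-β) * Run7.h634.L.dg a d) (some v) * y' * κ⁻¹ := by
      rw [hy']; group
    rw [h3, h1, cong_zero_eq]
    refine mul_mem (mul_mem (Run7.h634.L.up_mem_GLint hβ1)
      (Run7.h634.L.dg_mem_GLint hua hud)) (inv_mem hκ)

/-- **(R1)** every element of `GL₂(𝔸)` becomes integral at all finite places after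
multiplication by an upper triangular matrix over `K`. -/
theorem exists_borel (x : GA F) : ∃ γ : GL (Fin 2) (RatFunc F), γ.val 1 0 = 0 ∧
    ∀ v : HeightOneSpectrum F[X], (glob F γ * x) (some v) ∈ Cong (Kc F (some v)) 0 := by
  classical
  have key : ∀ (S : Finset (HeightOneSpectrum F[X])) (x : GA F),
      (∀ v ∉ S, x (some v) ∈ Cong (Kc F (some v)) 0) →
      ∃ γ : GL (Fin 2) (RatFunc F), γ.val 1 0 = 0 ∧
        ∀ v : HeightOneSpectrum F[X], (glob F γ * x) (some v) ∈ Cong (Kc F (some v)) 0 := by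
    intro S
    induction S using Finset.induction_on with
    | empty =>
      intro x hx
      refine ⟨1, by simp, fun v => ?_⟩
      rw [map_one, one_mul]
      exact hx v (Finset.notMem_empty v)
    | insert v T hvT ih =>
      intro x hx
      obtain ⟨γ₁, h10, hne, hv⟩ := borel_one F v (x (some v))
      obtain ⟨γ₂, h10', h2⟩ := ih (glob F γ₁ * x) (by
        intro v' hv'
        rw [RestrictedProduct.mul_apply]
        by_cases h : v' = v
        · subst h; exact hv
        · refine mul_mem (hne v' h) (hx v' ?_)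
          rw [Finset.mem_insert, not_or]; exact ⟨h, hv'⟩)
      refine ⟨γ₂ * γ₁, ?_, fun v' => ?_⟩
      · rw [Run7.h634.L.mul_val_ij, h10, h10']; simp
      · rw [map_mul, mul_assoc]; exact h2 v'
  have hx : {v : HeightOneSpectrum F[X] | ¬ x (some v) ∈ Cong (Kc F (some v)) 0}.Finite :=
    (Filter.eventually_cofinite.1 x.2).preimage (Option.some_injective _).injOn
  refine key hx.toFinset x fun v hv => ?_
  by_contra h
  exact hv (hx.mem_toFinset.mpr h)

/-- strong approximation for `GL₂` -/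
theorem sa_gl2 (g : GA F) : ∃ (γ : GL (Fin 2) (RatFunc F)) (h : GL (Fin 2) (Kc F none))
    (k : GA F), k none = 1 ∧ (∀ w, k w ∈ Cong (Kc F w) 0) ∧ g = glob F γ * loc F none h * k := by
  obtain ⟨γ, _, hγ⟩ := exists_borel F g
  refine ⟨γ⁻¹, (glob F γ * g) none, (loc F none ((glob F γ * g) none))⁻¹ * (glob F γ * g),
    ?_, ?_, ?_⟩
  · rw [RestrictedProduct.mul_apply, RestrictedProduct.inv_apply, loc_same, inv_mul_cancel]
  · intro w
    cases w with
    | none =>
      rw [RestrictedProduct.mul_apply, RestrictedProduct.inv_apply, loc_same, inv_mul_cancel]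
      exact one_mem _
    | some v =>
      rw [RestrictedProduct.mul_apply, RestrictedProduct.inv_apply, loc_ne (by simp), inv_one,
        one_mul]
      exact hγ v
  · rw [map_inv]; group

/-- approximation of units -/
theorem sa_unit (w : Pl F) (hw : w ≠ none) (z : (Kc F w)ˣ) : ∃ a : (RatFunc F)ˣ,
    Valued.v (emb F w (a : RatFunc F)) = (Valued.v (z : Kc F w) : ℤᵐ⁰) ∧
    ∀ w', w' ≠ none → w' ≠ w → vK F w' (a : RatFunc F) = 1 := by
  cases w with
  | none => exact absurd rfl hw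
  | some v =>
    obtain ⟨p, hp0, hpI, hpv, hpv'⟩ := exists_gen F v
    obtain ⟨P, hP⟩ : ∃ P : (RatFunc F)ˣ, (P : RatFunc F) = algebraMap F[X] (RatFunc F) p :=
      ⟨Units.mk0 _ (am_ne F hp0), rfl⟩
    have hz : Valued.v (z : Kc F (some v)) ≠ (0 : ℤᵐ⁰) := (Valuation.ne_zero_iff _).2 z.ne_zero
    refine ⟨P ^ (-log (Valued.v (z : Kc F (some v)))), ?_, ?_⟩
    · rw [v_emb, Units.val_zpow_eq_zpow_val, map_zpow₀, hP, hpv, ← WithZero.exp_zsmul]
      nth_rewrite 2 [← exp_log hz]
      congr 1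
      simp
    · intro w' hw' hne
      cases w' with
      | none => exact absurd rfl hw'
      | some v' =>
        rw [Units.val_zpow_eq_zpow_val, map_zpow₀, hP, hpv' v' (fun h => hne (by rw [h])),
          one_zpow]

end Run7.h634.AF
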