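import Pool.Agent.Run7.h634.AF.FF

/-!
# Strong approximation for the additive group, finiteness of `𝔸 / (K + W_m)`, piece G
-/

set_option autoImplicit false
noncomputable section

namespace Run7.h634.AF

open IsDedekindDomain Polynomial WithZero RestrictedProduct Run7.h866.AF

variable (F : Type) [Field F]

lemma am_ne {p : F[X]} (hp : p ≠ 0) : algebraMap F[X] (RatFunc F) p ≠ 0 := by
  rw [Ne, map_eq_zero_iff _ (RatFunc.algebraMap_injective F)]; exact hp

/-- a generator of a prime of `F[t]` -/
lemma exists_gen (v : HeightOneSpectrum F[X]) : ∃ p : F[X], p ≠ 0 ∧ v.asIdeal = Ideal.span {p} ∧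
    vK F (some v) (algebraMap F[X] (RatFunc F) p) = exp (-1 : ℤ) ∧
    ∀ v' : HeightOneSpectrum F[X], v' ≠ v →
      vK F (some v') (algebraMap F[X] (RatFunc F) p) = 1 := by
  obtain ⟨p, hp⟩ := (IsPrincipalIdealRing.principal v.asIdeal).principal
  have hp' : v.asIdeal = Ideal.span {p} := hp
  have hp0 : p ≠ 0 := by
    rintro rfl
    apply v.ne_bot
    rw [hp']; simp
  refine ⟨p, hp0, hp', ?_, ?_⟩
  · show v.valuation (RatFunc F) (algebraMap F[X] (RatFunc F) p) = _
    rw [HeightOneSpectrum.valuation_of_algebraMap]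
    exact v.intValuation_singleton hp0 hp'
  · intro v' hv'
    rw [v_fin_eq_one]
    intro hmem
    apply hv'
    have h1 : v.asIdeal ≤ v'.asIdeal := by
      rw [hp', Ideal.span_le]
      simpa using hmem
    have hmax : v.asIdeal.IsMaximal := v.isPrime.isMaximal v.ne_bot
    exact HeightOneSpectrum.ext (hmax.eq_of_le v'.isPrime.ne_top h1).symm

/-- approximation at one finite place by an element integral at all other finite places -/
lemma sa_one (v : HeightOneSpectrum F[X]) (x : Kc F (some v)) : ∃ β : RatFunc F,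
    Valued.v (x - emb F (some v) β) ≤ (1 : ℤᵐ⁰) ∧
    ∀ v' : HeightOneSpectrum F[X], v' ≠ v → vK F (some v') β ≤ 1 := by
  obtain ⟨y, hy⟩ := dense_emb F (some v) x 0
  rw [exp_zero] at hy
  obtain ⟨p, hp0, hpI, hpv, hpv'⟩ := exists_gen F v
  have hP0 := am_ne F hp0
  -- clear denominators at `v`
  obtain ⟨k, hk⟩ : ∃ k : ℕ, vK F (some v) (algebraMap F[X] (RatFunc F) p ^ k * y) ≤ 1 := by
    by_cases hy0 : vK F (some v) y = 0
    · exact ⟨0, by rw [pow_zero, one_mul, hy0]; exact zero_le⟩
    · refine ⟨(log (vK F (some v) y)).toNat, ?_⟩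
      rw [map_mul, map_pow, hpv, ← WithZero.exp_nsmul]
      nth_rewrite 2 [← exp_log hy0]
      rw [← exp_add, ← exp_zero, exp_le_exp]
      simp
  set P := algebraMap F[X] (RatFunc F) p with hP
  set z := P ^ k * y with hz
  have hd := denom_notMem F v z hk
  have hmax : v.asIdeal.IsMaximal := v.isPrime.isMaximal v.ne_bot
  have hcop : IsCoprime z.denom (p ^ k) := by
    apply IsCoprime.pow_right
    obtain ⟨c, e, he, hce⟩ := hmax.exists_inv hd
    rw [hpI, Ideal.mem_span_singleton'] at he
    obtain ⟨b, rfl⟩ := he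
    exact ⟨c, b, hce⟩
  obtain ⟨a, b, hab⟩ := hcop
  have hd0 : algebraMap F[X] (RatFunc F) z.denom ≠ 0 := am_ne F (RatFunc.denom_ne_zero z)
  refine ⟨algebraMap F[X] (RatFunc F) (z.num * a) / P ^ k, ?_, ?_⟩
  · have h1 : y - algebraMap F[X] (RatFunc F) (z.num * a) / P ^ k =
        algebraMap F[X] (RatFunc F) (z.num * b) / algebraMap F[X] (RatFunc F) z.denom := by
      have hPk : P ^ k ≠ 0 := pow_ne_zero _ hP0
      have h3 : algebraMap F[X] (RatFunc F) z.num / algebraMap F[X] (RatFunc F) z.denom =
        P ^ k * y := RatFunc.num_div_denom z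
      have h4 : algebraMap F[X] (RatFunc F) a * algebraMap F[X] (RatFunc F) z.denom +
          algebraMap F[X] (RatFunc F) b * P ^ k = 1 := by
        rw [hP, ← map_pow, ← map_mul, ← map_mul, ← map_add, hab, map_one]
      rw [map_mul, map_mul]
      generalize algebraMap F[X] (RatFunc F) z.num = n at *
      generalize algebraMap F[X] (RatFunc F) z.denom = d at *
      generalize algebraMap F[X] (RatFunc F) a = a' at *
      generalize algebraMap F[X] (RatFunc F) b = b' at *
      rw [div_eq_iff hd0] at h3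
      rw [eq_div_iff hd0, sub_mul, div_mul_eq_mul_div, sub_eq_iff_eq_add, ← sub_eq_iff_eq_add',
        eq_div_iff hPk]
      linear_combination (-1 : RatFunc F) * h3 + (-n) * h4
    have h5 : x - emb F (some v) (algebraMap F[X] (RatFunc F) (z.num * a) / P ^ k) =
        (x - emb F (some v) y) +
          emb F (some v) (y - algebraMap F[X] (RatFunc F) (z.num * a) / P ^ k) := by
      rw [map_sub]; ring
    rw [h5]
    refine (Valuation.map_add _ _ _).trans (max_le hy.le ?_)
    rw [v_emb, h1, map_div₀, (v_fin_eq_one F v _).2 hd, div_one]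
    exact v_fin_poly F v _
  · intro v' hv'
    rw [map_div₀, map_pow, hpv' v' hv', one_pow, div_one]
    exact v_fin_poly F v' _

/-- **strong approximation for the additive group**, finite places only: for every family of
local elements there is a global element which is close at the places of the finite set `S` and
integral outside `S`. -/
lemma sa_finset (x : ∀ v : HeightOneSpectrum F[X], Kc F (some v))
    (S : Finset (HeightOneSpectrum F[X])) : ∃ β : RatFunc F,
    (∀ v ∈ S, Valued.v (x v - emb F (some v) β) ≤ (1 : ℤᵐ⁰)) ∧ ∀ v ∉ S, vK F (some v) β ≤ 1 := by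
  classical
  choose b hb1 hb2 using fun v => sa_one F v (x v)
  have hint : ∀ (v : HeightOneSpectrum F[X]) (T : Finset (HeightOneSpectrum F[X])), v ∉ T →
      vK F (some v) (∑ v' ∈ T, b v') ≤ 1 := by
    intro v T hv
    refine Valuation.map_sum_le _ fun v' hv' => hb2 v' v ?_
    rintro rfl
    exact hv hv'
  refine ⟨∑ v ∈ S, b v, fun v hv => ?_, fun v hv => hint v S hv⟩
  rw [← Finset.add_sum_erase S b hv, map_add]
  have h1 : x v - (emb F (some v) (b v) + emb F (some v) (∑ v' ∈ S.erase v, b v')) =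
      (x v - emb F (some v) (b v)) - emb F (some v) (∑ v' ∈ S.erase v, b v') := by ring
  rw [h1]
  refine (Valuation.map_sub _ _ _).trans (max_le (hb1 v) ?_)
  rw [v_emb]
  exact hint v _ (Finset.notMem_erase v S)

/-- **strong approximation for the additive group**: `𝔸 = K + W_0`. -/
theorem exists_global_sub (x : AK F) : ∃ β : RatFunc F, x - globA F β ∈ W F 0 := by
  classical
  have hx : {w : Pl F | ¬ Valued.v (x w) ≤ (1 : ℤᵐ⁰)}.Finite :=
    Filter.eventually_cofinite.1 x.2
  have hS : {v : HeightOneSpectrum F[X] | ¬ Valued.v (x (some v)) ≤ (1 : ℤᵐ⁰)}.Finite :=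
    hx.preimage (Option.some_injective _).injOn
  obtain ⟨β, hβ1, hβ2⟩ := sa_finset F (fun v => x (some v)) hS.toFinset
  have hβ : ∀ v, Valued.v (x (some v) - emb F (some v) β) ≤ (1 : ℤᵐ⁰) := by
    intro v
    by_cases hv : v ∈ hS.toFinset
    · exact hβ1 v hv
    · refine (Valuation.map_sub _ _ _).trans (max_le ?_ ?_)
      · by_contra hcon
        exact hv (hS.mem_toFinset.mpr hcon)
      · rw [v_emb]; exact hβ2 v hv
  obtain ⟨y, hy⟩ := dense_emb F none (x none - emb F none β) 0
  rw [exp_zero] at hy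
  obtain ⟨p, hp⟩ := poly_part F y
  refine ⟨β + algebraMap F[X] (RatFunc F) p, fun w => ?_⟩
  have h0 : (x - globA F (β + algebraMap F[X] (RatFunc F) p)) w =
      x w - emb F w (β + algebraMap F[X] (RatFunc F) p) := rfl
  rw [h0]
  have h00 : exp (-(((0 : Pl F →₀ ℕ) w : ℕ) : ℤ)) = (1 : ℤᵐ⁰) := by simp
  rw [h00, map_add]
  cases w with
  | none =>
    have h1 : x none - (emb F none β + emb F none (algebraMap F[X] (RatFunc F) p)) =
        (x none - emb F none β - emb F none y) +
          emb F none (y - algebraMap F[X] (RatFunc F) p) := by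
      rw [map_sub]; ring
    rw [h1]
    refine (Valuation.map_add _ _ _).trans (max_le hy.le ?_)
    rw [v_emb]; exact hp.le
  | some v =>
    have h1 : x (some v) - (emb F (some v) β + emb F (some v) (algebraMap F[X] (RatFunc F) p)) =
        (x (some v) - emb F (some v) β) - emb F (some v) (algebraMap F[X] (RatFunc F) p) := by
      ring
    rw [h1]
    refine (Valuation.map_sub _ _ _).trans (max_le (hβ v) ?_)
    rw [v_emb]; exact v_fin_poly F v p

/-- `𝔸 / (K + W_m)` is finite. -/
theorem finite_quot_AK [Fintype F] (m : Pl F →₀ ℕ) :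
    Finite (AK F ⧸ ((globA F).toAddMonoidHom.range ⊔ W F m)) := by
  classical
  set H := (globA F).toAddMonoidHom.range ⊔ W F m with hH
  have hrep : ∀ c : AK F ⧸ H, ∃ x : AK F, x ∈ W F 0 ∧ (QuotientAddGroup.mk x : AK F ⧸ H) = c := by
    intro c
    obtain ⟨x, rfl⟩ := QuotientAddGroup.mk_surjective c
    obtain ⟨β, hβ⟩ := exists_global_sub F x
    refine ⟨x - globA F β, hβ, ?_⟩
    rw [QuotientAddGroup.eq]
    have h1 : -(x - globA F β) + x = globA F β := by abel
    rw [h1]
    exact AddSubgroup.mem_sup_left ⟨β, rfl⟩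
  choose X hX0 hX using hrep
  have hres : ∀ w : Pl F, ∃ R : Finset (Kc F w), ∀ x, Valued.v x ≤ (1 : ℤᵐ⁰) →
      ∃ r ∈ R, Valued.v (x - r) ≤ exp (-((m w : ℕ) : ℤ)) := by
    intro w
    obtain ⟨R⟩ := exists_res F w
    exact finRes R (m w)
  choose R hR using hres
  choose r hrR hr using hR
  have h0 : ∀ c w, Valued.v (X c w) ≤ (1 : ℤᵐ⁰) := by
    intro c w
    have := hX0 c w
    simpa using this
  let f : AK F ⧸ H → (∀ w : m.support, R w.1) := fun c w => ⟨r w.1 _ (h0 c w.1), hrR _ _ _⟩
  have hf : Function.Injective f := by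
    intro c c' hcc
    rw [← hX c, ← hX c', QuotientAddGroup.eq]
    refine AddSubgroup.mem_sup_right fun w => ?_
    have h2 : (-X c + X c') w = -(X c w) + X c' w := rfl
    rw [h2]
    by_cases hw : w ∈ m.support
    · have h3 : r w _ (h0 c w) = r w _ (h0 c' w) := congrArg Subtype.val (congrFun hcc ⟨w, hw⟩)
      have h4 : -(X c w) + X c' w = (X c' w - r w _ (h0 c' w)) - (X c w - r w _ (h0 c w)) := by
        rw [h3]; ring
      rw [h4]
      exact (Valuation.map_sub _ _ _).trans (max_le (hr w _ _) (hr w _ _))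
    · have h5 : m w = 0 := Finsupp.notMem_support_iff.mp hw
      rw [h5, Nat.cast_zero, neg_zero, exp_zero]
      refine (Valuation.map_add _ _ _).trans (max_le ?_ (h0 c' w))
      rw [Valuation.map_neg]; exact h0 c w
  exact Finite.of_injective f hf

/-- (piece G) the same for cusp forms -/
theorem cusp_span [Fintype F] (h : GA F → ℂ) (hc : IsCuspFun F h)
    (f : GA F → ℂ) (hf : f ∈ Submodule.span ℂ (Set.range fun g : GA F => rt F g h)) :
    IsCuspFun F f := by
  induction hf using Submodule.span_induction with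
  | mem x hx =>
    obtain ⟨g', rfl⟩ := hx
    intro g
    obtain ⟨m₀, hm₀⟩ := hc (g * g')
    refine ⟨m₀, fun m hm => ?_⟩
    rw [← hm₀ m hm]
    unfold constTerm
    refine finsum_congr fun y => ?_
    show h (tri F 1 y.out 1 * g * g') = _
    rw [mul_assoc]
  | zero =>
    intro g
    refine ⟨0, fun m _ => ?_⟩
    unfold constTerm
    exact finsum_zero
  | add a b _ _ ha hb =>
    intro g
    obtain ⟨m₁, h₁⟩ := ha g
    obtain ⟨m₂, h₂⟩ := hb g
    refine ⟨m₁ + m₂, fun m hm => ?_⟩
    have e1 := h₁ m (le_self_add.trans hm)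
    have e2 := h₂ m (le_add_self.trans hm)
    unfold constTerm at *
    have hfin := finite_quot_AK F m
    have e3 : ∀ y : AK F ⧸ ((globA F).toAddMonoidHom.range ⊔ W F m),
        (a + b) (tri F 1 y.out 1 * g) = a (tri F 1 y.out 1 * g) + b (tri F 1 y.out 1 * g) :=
      fun _ => rfl
    simp only [e3]
    rw [finsum_add_distrib (Set.toFinite _) (Set.toFinite _), e1, e2, add_zero]
  | smul c a _ ha =>
    intro g
    obtain ⟨m₁, h₁⟩ := ha g
    refine ⟨m₁, fun m hm => ?_⟩
    have e1 := h₁ m hm
    unfold constTerm at *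
    have hfin := finite_quot_AK F m
    have e3 : ∀ y : AK F ⧸ ((globA F).toAddMonoidHom.range ⊔ W F m),
        (c • a) (tri F 1 y.out 1 * g) = c • a (tri F 1 y.out 1 * g) := fun _ => rfl
    simp only [e3]
    rw [← smul_finsum' c (Set.toFinite _), e1, smul_zero]

end Run7.h634.AF
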